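import Pool.Agent.Bfly.Fin

/-!
# The asymptotic form
-/

set_option autoImplicit false

namespace Pool.Agent.Bfly

theorem bound_asy (c : ℕ) : ∃ C : ℕ, ∀ μ H k n : ℕ, C ≤ μ → H = μ ^ c + 1 →
    k = 48 * (μ * H) + 1 → n = μ * H * 2 ^ μ * k ^ 2 →
    ∀ z z' : Fin k, z ≠ z' → ∀ (Q : Type) [Fintype Q] (M : NBP (Node μ (μ * H)) (Fin k) Q),
    (∀ f, (∃ L, M.Acc f L) ↔ ∀ x, value z f (μ * H) x = z') →
    ∀ s w : ℕ, Fintype.card Q ≤ 2 ^ s →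
    (Fintype.card Q < 2 ^ μ ^ c ∨
      ∀ f, (∀ x, value z f (μ * H) x = z') → ∃ L, M.Acc f L ∧ L.length < 2 ^ μ ^ c) →
    (∀ f L, M.Acc f L → (wrong z f L).ncard ≤ w) → n ≤ (s + w) * μ ^ C := by
  obtain ⟨B, hB⟩ : ∃ B, B = 24 * (2 * 98 ^ 2) * (3 * c + 20) := ⟨_, rfl⟩
  refine ⟨B + (3 * c + 5), ?_⟩
  intro μ H k n hμ hH hk hn z z' hz Q _ M hM s w hs hT hw
  have hμB : B ≤ μ := by omega
  have hμ2 : 2 ≤ μ := by omega
  have hμ1 : 1 ≤ μ := by omega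
  have hpc : 1 ≤ μ ^ c := Nat.one_le_pow _ _ hμ1
  have hHc : 2 ^ (H - 1) = 2 ^ μ ^ c := by rw [hH, Nat.add_sub_cancel]
  have h1 := bound μ H k hμ2 (by omega) z z' hz (by omega) M hM s w hs
    (by rw [hHc]; exact hT) hw
  rw [← hn] at h1
  have h3 : 2 ^ μ ≤ 24 * (s + w) * (Nat.log 2 n + 1) := by
    refine h1.trans ?_
    have : 16 * s ≤ 24 * s * (Nat.log 2 n + 1) := by nlinarith [Nat.zero_le (s * Nat.log 2 n)]
    calc 16 * s + 24 * w * (Nat.log 2 n + 1) ≤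
          24 * s * (Nat.log 2 n + 1) + 24 * w * (Nat.log 2 n + 1) := Nat.add_le_add_right this _
      _ = _ := by ring
  have hH2 : H ≤ 2 * μ ^ c := by omega
  have hk2 : k ≤ 98 * μ ^ (c + 1) := by
    have e1 : μ * H ≤ 2 * μ ^ (c + 1) := by
      calc μ * H ≤ μ * (2 * μ ^ c) := Nat.mul_le_mul_left _ hH2
        _ = _ := by ring
    have e2 : 1 ≤ μ ^ (c + 1) := Nat.one_le_pow _ _ hμ1
    omega
  have h4 : μ * H * k ^ 2 ≤ 2 * 98 ^ 2 * μ ^ (3 * c + 3) := by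
    calc μ * H * k ^ 2 ≤ μ * (2 * μ ^ c) * (98 * μ ^ (c + 1)) ^ 2 :=
          Nat.mul_le_mul (Nat.mul_le_mul_left _ hH2) (Nat.pow_le_pow_left hk2 2)
      _ = _ := by ring
  have h5 : Nat.log 2 n + 1 ≤ (3 * c + 20) * μ := by
    have e1 : n < 2 ^ ((3 * c + 20) * μ) := by
      have e2 : 2 * 98 ^ 2 < 2 ^ 15 := by norm_num
      have e3 : μ ^ (3 * c + 3) ≤ 2 ^ (μ * (3 * c + 3)) := by
        rw [pow_mul]
        exact Nat.pow_le_pow_left Nat.lt_two_pow_self.le _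
      calc n = 2 ^ μ * (μ * H * k ^ 2) := by rw [hn]; ring
        _ ≤ 2 ^ μ * (2 * 98 ^ 2 * μ ^ (3 * c + 3)) := Nat.mul_le_mul_left _ h4
        _ ≤ 2 ^ μ * (2 * 98 ^ 2 * 2 ^ (μ * (3 * c + 3))) :=
          Nat.mul_le_mul_left _ (Nat.mul_le_mul_left _ e3)
        _ < 2 ^ μ * (2 ^ 15 * 2 ^ (μ * (3 * c + 3))) :=
          Nat.mul_lt_mul_of_pos_left (Nat.mul_lt_mul_of_pos_right e2 (by positivity))
            (by positivity)
        _ = 2 ^ (μ + (15 + μ * (3 * c + 3))) := by rw [pow_add, pow_add]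
        _ ≤ _ := Nat.pow_le_pow_right (by norm_num) (by nlinarith)
    have hn0 : n ≠ 0 := by
      rw [hn, hk, hH]
      positivity
    have := (Nat.log_lt_iff_lt_pow (by norm_num) hn0).2 e1
    omega
  calc n = 2 ^ μ * (μ * H * k ^ 2) := by rw [hn]; ring
    _ ≤ (24 * (s + w) * ((3 * c + 20) * μ)) * (2 * 98 ^ 2 * μ ^ (3 * c + 3)) :=
      Nat.mul_le_mul (h3.trans (Nat.mul_le_mul_left _ h5)) h4
    _ = (s + w) * (B * μ ^ (3 * c + 4)) := by rw [hB]; ring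
    _ ≤ (s + w) * (μ * μ ^ (3 * c + 4)) := Nat.mul_le_mul_left _ (Nat.mul_le_mul_right _ hμB)
    _ = (s + w) * μ ^ (3 * c + 5) := by ring
    _ ≤ _ := Nat.mul_le_mul_left _ (Nat.pow_le_pow_right hμ1 (by omega))

end Pool.Agent.Bfly
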