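import Pool.Agent.Bfly.Win
import Pool.Agent.Thrift.Count

/-!
# Counting labelings
-/

set_option autoImplicit false

namespace Pool.Agent.Bfly

open Finset Pool.Agent.Thrift

variable {μ H : ℕ} {K Q : Type}

theorem EE_top {z : K} {a : Node μ (μ * H) → K} {L : List (Lab μ (μ * H) K)}
    {u : Node μ (μ * H)} (hu : u ∈ EE z a L) : u.1.val + 1 ≠ μ * H := by
  obtain ⟨⟨v, -, h1⟩, -⟩ := mem_EE.1 hu
  have h3 := v.1.2
  obtain ⟨h2, h1 | h1⟩ := mem_ch.1 h1
  · rw [h1]
    simp only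
    omega
  · rw [h1]
    simp only
    omega

theorem main_count [Fintype K] [DecidableEq K] [Fintype Q] (hμ : 2 ≤ μ) (hH : 1 ≤ H)
    (M : NBP (Node μ (μ * H)) K Q) {z z' : K} (hz : z' ≠ z) {w e : ℕ}
    (hM : ∀ f L, M.Acc f L → ∀ x, value z f (μ * H) x = z')
    (hw : ∀ f L, M.Acc f L → (wrong z f L).ncard ≤ w)
    (hacc : ∀ a : Node μ (μ * H) → K, (∀ v, a v ≠ z) → (∀ v, v.1.val + 1 = μ * H → a v = z') →
      ∃ L, M.Acc (opA z a) L ∧ L.length < 2 ^ (H - 1))
    (he : 8 * e < 2 ^ μ + 8) :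
    Fintype.card {y : K // y ≠ z} ^ e ≤
      (Fintype.card (Node μ (μ * H)) * Fintype.card {y : K // y ≠ z} + 1) ^ (2 * w) *
      (Fintype.card Q ^ 2 * (Fintype.card (Node μ (μ * H) × K × K) + 1) ^ w *
        (Fintype.card (Node μ (μ * H))).choose e) := by
  classical
  set K' := {y : K // y ≠ z} with hK'
  set x0 : K' := ⟨z', hz⟩ with hx0
  set Top : Finset (Node μ (μ * H)) := univ.filter (fun v => v.1.val + 1 = μ * H) with hTop
  let A : ((Node μ (μ * H)) → K') → ((Node μ (μ * H)) → K) := fun b v => (b v).1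
  have hAz : ∀ b v, A b v ≠ z := fun b v => (b v).2
  have hdata : ∀ b : (Node μ (μ * H)) → K', (∀ u ∈ Top, b u = x0) → ∃ (q q' f : Q) (E' : Finset (Node μ (μ * H)))
      (R : Finset ((Node μ (μ * H)) × K × K)) (L1 L2 L3 : List (Lab μ (μ * H) K)),
      M.Run M.start L1 q ∧ M.Run q L2 q' ∧ M.Run q' L3 f ∧ M.acc f ∧
      (∀ v x y r, some (v, x, y, r) ∈ L1 ++ L2 ++ L3 → opA z (A b) v x y = r) ∧
      E' ⊆ EE z (A b) L2 ∧ E'.card = e ∧ R.card ≤ w ∧
      (R : Set ((Node μ (μ * H)) × K × K)) = wrong z (opA z (A b)) (L1 ++ L2 ++ L3) := by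
    intro b hb
    obtain ⟨L, hL, hlen⟩ := hacc (A b) (hAz b) (fun v hv => by
      have := hb v (by rw [hTop, mem_filter]; exact ⟨mem_univ _, hv⟩)
      simp only [A]
      rw [this])
    obtain ⟨L2, ⟨L1, L3, rfl⟩, h2⟩ := exists_window hμ hH M hz.symm hM (hAz b) hL hlen
    obtain ⟨E', hE1, hE2⟩ := exists_subset_card_eq (n := e) (s := EE z (A b) L2) (by omega)
    obtain ⟨⟨f, hrun, hf⟩, hcons⟩ := hL
    obtain ⟨q', h12, h3⟩ := (M.run_append).1 hrun
    obtain ⟨q, h1, h2'⟩ := (M.run_append).1 h12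
    have hww := hw (opA z (A b)) (L1 ++ L2 ++ L3) ⟨⟨f, hrun, hf⟩, hcons⟩
    have hfin : (wrong z (opA z (A b)) (L1 ++ L2 ++ L3)).Finite := Set.toFinite _
    refine ⟨q, q', f, E', hfin.toFinset, L1, L2, L3, h1, h2', h3, hf, hcons, hE1, hE2, ?_, ?_⟩
    · rwa [← Set.ncard_eq_toFinset_card _ hfin]
    · exact hfin.coe_toFinset
  have : Nonempty Q := ⟨M.start⟩
  choose! dq dq' df dE dR dL1 dL2 dL3 hd using hdata
  have hdTop : ∀ b : (Node μ (μ * H)) → K', (∀ u ∈ Top, b u = x0) → Disjoint Top (dE b) := by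
    intro b hb
    obtain ⟨-, -, -, -, -, h6, -, -, -⟩ := hd b hb
    rw [disjoint_left]
    intro u hu huE
    rw [hTop, mem_filter] at hu
    exact EE_top (h6 huE) hu.2
  set 𝓛 : Finset ((Node μ (μ * H)) → K') := univ.filter (fun b => ∀ u ∈ Top, b u = x0) with h𝓛
  have mem𝓛 : ∀ b, b ∈ 𝓛 ↔ ∀ u ∈ Top, b u = x0 := by intro b; simp [h𝓛]
  let Φ : ((Node μ (μ * H)) → K') → Q × Q × Finset ((Node μ (μ * H)) × K × K) × (Σ _ : Finset (Node μ (μ * H)), ((Node μ (μ * H)) → K')) :=
    fun b => (dq b, dq' b, dR b, ⟨dE b, fun u => if u ∈ dE b then x0 else b u⟩)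
  let 𝓔 : Finset (Finset (Node μ (μ * H))) := (powersetCard e (univ : Finset (Node μ (μ * H)))).filter (fun E' => Disjoint Top E')
  let S : Finset (Q × Q × Finset ((Node μ (μ * H)) × K × K) × (Σ _ : Finset (Node μ (μ * H)), ((Node μ (μ * H)) → K'))) :=
    univ ×ˢ univ ×ˢ ((univ : Finset (Finset ((Node μ (μ * H)) × K × K))).filter (fun s => s.card ≤ w)) ×ˢ
      (𝓔.sigma (fun E' => (univ : Finset ((Node μ (μ * H)) → K')).filter (fun b => ∀ u ∈ Top ∪ E', b u = x0)))
  have hS : ∀ b ∈ 𝓛, Φ b ∈ S := by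
    intro b hb
    have hb' := (mem𝓛 b).1 hb
    obtain ⟨-, -, -, -, -, -, h7, h8, -⟩ := hd b hb'
    simp only [Φ, S, 𝓔, mem_product, mem_univ, true_and, mem_filter, mem_sigma, mem_powersetCard,
      subset_univ]
    refine ⟨h8, ⟨h7, hdTop b hb'⟩, fun u hu => ?_⟩
    split_ifs with h9
    · rfl
    · rw [mem_union] at hu
      exact hb' u (hu.resolve_right h9)
  have hfib : ∀ t ∈ S, (𝓛.filter (fun b => Φ b = t)).card ≤
      (Fintype.card (Node μ (μ * H)) * Fintype.card K' + 1) ^ (2 * w) := by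
    intro t _
    rcases (𝓛.filter (fun b => Φ b = t)).eq_empty_or_nonempty with he | ⟨b0, hb0⟩
    · rw [he]; simp
    · rw [← Fintype.card_prod]
      refine le_trans ?_ (card_small (α := (Node μ (μ * H)) × K') (2 * w))
      rw [mem_filter, mem𝓛] at hb0
      obtain ⟨hb0, hΦ0⟩ := hb0
      let D : ((Node μ (μ * H)) → K') → Finset (Node μ (μ * H)) := fun b => (dE b0).filter (fun u => b u ≠ b0 u)
      have hoff : ∀ b ∈ 𝓛.filter (fun b => Φ b = t), dq b = dq b0 ∧ dq' b = dq' b0 ∧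
          dR b = dR b0 ∧ dE b = dE b0 ∧ ∀ u, u ∉ dE b0 → b u = b0 u := by
        intro b hb
        rw [mem_filter] at hb
        have h5 := hb.2.trans hΦ0.symm
        simp only [Φ, Prod.mk.injEq, Sigma.mk.injEq, heq_eq_eq] at h5
        obtain ⟨e1, e2, e3, e4, e5⟩ := h5
        refine ⟨e1, e2, e3, e4, fun u hu => ?_⟩
        have := congrFun e5 u
        rwa [if_neg hu, if_neg (e4 ▸ hu)] at this
      refine card_le_card_of_injOn (fun b => (D b).image (fun u => (u, b u))) ?_ ?_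
      · intro b hb
        rw [mem_coe] at hb
        obtain ⟨e1, e2, e3, e4, e5⟩ := hoff b hb
        rw [mem_filter, mem𝓛] at hb
        rw [mem_coe, mem_filter]
        refine ⟨mem_univ _, card_image_le.trans ?_⟩
        obtain ⟨a1, a2, a3, a4, a5, a6, a7, a8, a9⟩ := hd b hb.1
        obtain ⟨b1, b2, b3, b4, b5, b6, b7, b8, b9⟩ := hd b0 hb0
        refine swap M hw (a := A b0) (a' := A b) b1 b3 b4 (L2' := dL2 b) ?_ b5 a5 ?_
          (E' := dE b0) ?_ ?_ (D b) ?_
        · rw [← e1, ← e2]; exact a2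
        · rw [← b9, ← a9, e3]
        · rw [← e4]; exact a6
        · intro u hu
          simp only [A]
          rw [e5 u hu]
        · intro u hu
          simp only [D, mem_filter] at hu
          exact ⟨hu.1, fun hh => hu.2 (Subtype.ext hh.symm)⟩
      · intro b hb b' hb' hbb
        rw [mem_coe] at hb hb'
        obtain ⟨-, -, -, -, e5⟩ := hoff b hb
        obtain ⟨-, -, -, -, f5⟩ := hoff b' hb'
        have hkey : ∀ (b b' : (Node μ (μ * H)) → K'), (D b).image (fun u => (u, b u)) =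
            (D b').image (fun u => (u, b' u)) → ∀ u ∈ dE b0, b u ≠ b0 u → b' u = b u := by
          intro b b' hbb u hu hne
          have h5 : (u, b u) ∈ (D b).image (fun u => (u, b u)) :=
            mem_image.2 ⟨u, mem_filter.2 ⟨hu, hne⟩, rfl⟩
          rw [hbb, mem_image] at h5
          obtain ⟨u', -, h6⟩ := h5
          rw [Prod.mk.injEq] at h6
          rw [← h6.1, h6.2, h6.1]
        funext u
        by_cases hu : u ∈ dE b0
        · by_cases hne : b u = b0 u
          · by_cases hne' : b' u = b0 u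
            · rw [hne, hne']
            · exact hkey b' b hbb.symm u hu hne'
          · exact (hkey b b' hbb u hu hne).symm
        · rw [e5 u hu, f5 u hu]
  have hcount := card_le_mul_card_image_of_maps_to hS _ hfib
  set n := Fintype.card (Node μ (μ * H)) with hn
  set τ := Top.card with hτ
  have hcS : S.card ≤ Fintype.card Q ^ 2 * (Fintype.card ((Node μ (μ * H)) × K × K) + 1) ^ w *
      (n.choose e * Fintype.card K' ^ (n - (τ + e))) := by
    simp only [S, card_product, card_univ]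
    rw [card_sigma]
    have e1 : ∑ E' ∈ 𝓔, ((univ : Finset ((Node μ (μ * H)) → K')).filter (fun b => ∀ u ∈ Top ∪ E', b u = x0)).card
        ≤ n.choose e * Fintype.card K' ^ (n - (τ + e)) := by
      rw [sum_congr rfl (g := fun _ => Fintype.card K' ^ (n - (τ + e)))]
      · rw [sum_const, smul_eq_mul]
        refine Nat.mul_le_mul_right _ ?_
        refine (card_filter_le _ _).trans ?_
        rw [card_powersetCard, card_univ]
      · intro E' hE'
        obtain ⟨hE1, hE2⟩ := mem_filter.1 hE'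
        rw [card_fix (Top ∪ E') x0 _ (by intro b; simp), card_union_of_disjoint hE2,
          (mem_powersetCard.1 hE1).2]
    have e2 := card_small (α := (Node μ (μ * H)) × K × K) w
    calc _ = Fintype.card Q ^ 2 * ((univ : Finset (Finset ((Node μ (μ * H)) × K × K))).filter
          (fun s => s.card ≤ w)).card * (∑ E' ∈ 𝓔, ((univ : Finset ((Node μ (μ * H)) → K')).filter
            (fun b => ∀ u ∈ Top ∪ E', b u = x0)).card) := by ring
      _ ≤ _ := Nat.mul_le_mul (Nat.mul_le_mul_left _ e2) e1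
  have hc𝓛 : 𝓛.card = Fintype.card K' ^ (n - τ) := by
    rw [card_fix Top x0 𝓛 (by intro b; simp [h𝓛])]
  have hkpos : 0 < Fintype.card K' := Fintype.card_pos_iff.2 ⟨x0⟩
  have hbn : τ + e ≤ n := by
    have ha : ∀ u ∈ Top, (fun _ => x0 : (Node μ (μ * H)) → K') u = x0 := fun u _ => rfl
    obtain ⟨-, -, -, -, -, -, h7, -, -⟩ := hd (fun _ => x0) ha
    rw [← h7, hτ, ← card_union_of_disjoint (hdTop _ ha)]
    exact card_le_univ _
  rw [hc𝓛] at hcount
  have hfinal := hcount.trans (Nat.mul_le_mul_left _ hcS)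
  have e3 : n - τ = e + (n - (τ + e)) := by omega
  rw [e3, pow_add] at hfinal
  refine Nat.le_of_mul_le_mul_right ?_ (pow_pos hkpos (n - (τ + e)))
  refine hfinal.trans (le_of_eq ?_)
  ring

end Pool.Agent.Bfly
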