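import Mathlib

/-!
# Evaluating stacked butterflies; nondeterministic branching programs
-/

set_option autoImplicit false

namespace Pool.Agent.Bfly

/-- The positions in a layer: words of `μ` bits. -/
abbrev Pos (μ : ℕ) : Type := Fin μ → Bool

/-- Flipping the bit number `t mod μ`. -/
def flip {μ : ℕ} (t : ℕ) (x : Pos μ) : Pos μ := fun c => if c.val = t % μ then !(x c) else x c

/-- The nodes: `T` layers with `2 ^ μ` nodes each. -/
abbrev Node (μ T : ℕ) : Type := Fin T × Pos μ

/-- The inputs: a function of two arguments from the set `K` for every node. -/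
abbrev Tab (μ T : ℕ) (K : Type) : Type := Node μ T → K → K → K

/-- The values: all values below layer `0` are `z`; the function of the node `x` in layer `t` is
applied to the values of the nodes `x` and `flip t x` in the layer below. `value z f (t + 1) x` is
the value of the node `x` in layer `t`. -/
def value {μ T : ℕ} {K : Type} (z : K) (f : Tab μ T K) : ℕ → Pos μ → K
  | 0, _ => z
  | t + 1, x => if h : t < T then f (⟨t, h⟩, x) (value z f t x) (value z f t (flip t x)) else z

/-- A nondeterministic branching program with the states `Q` whose input is a function of two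
arguments from `K` for every `v : V`. `edge q none q'` is a free move from `q` to `q'`;
`edge q (some (v, x, y, z)) q'` is a move which queries the value of the function `v` at `(x, y)`
and is possible if this value is `z`. -/
structure NBP (V K Q : Type) where
  start : Q
  acc : Q → Prop
  edge : Q → Option (V × K × K × K) → Q → Prop

variable {V K Q : Type}

/-- `M.Run q L q'`: moves with the labels `L` lead from `q` to `q'`. -/
def NBP.Run (M : NBP V K Q) : Q → List (Option (V × K × K × K)) → Q → Prop
  | q, [], q' => q = q'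
  | q, ℓ :: L, q' => ∃ r, M.edge q ℓ r ∧ M.Run r L q'

/-- `L` is (the list of labels of) an accepting computation for the input `f`. -/
def NBP.Acc (M : NBP V K Q) (f : V → K → K → K) (L : List (Option (V × K × K × K))) : Prop :=
  (∃ q, M.Run M.start L q ∧ M.acc q) ∧ ∀ v x y z, some (v, x, y, z) ∈ L → f v x y = z

/-- The wrong queries of a computation for the input `f`: the queries of the function of a node at
two arguments which are not the values of the two nodes below it. -/
def wrong {μ T : ℕ} {K : Type} (z : K) (f : Tab μ T K)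
    (L : List (Option (Node μ T × K × K × K))) : Set (Node μ T × K × K) :=
  {c | (∃ y, some (c.1, c.2.1, c.2.2, y) ∈ L) ∧
    ¬ (c.2.1 = value z f c.1.1 c.1.2 ∧ c.2.2 = value z f c.1.1 (flip c.1.1 c.1.2))}

theorem NBP.run_append (M : NBP V K Q) {L L' : List (Option (V × K × K × K))} {q q' : Q} :
    M.Run q (L ++ L') q' ↔ ∃ r, M.Run q L r ∧ M.Run r L' q' := by
  induction L generalizing q with
  | nil => simp [NBP.Run]
  | cons ℓ L ih =>
    simp only [List.cons_append, NBP.Run]
    constructor
    · rintro ⟨r, h1, h2⟩
      obtain ⟨r', h3, h4⟩ := ih.1 h2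
      exact ⟨r', ⟨r, h1, h3⟩, h4⟩
    · rintro ⟨r', ⟨r, h1, h3⟩, h4⟩
      exact ⟨r, h1, ih.2 ⟨r', h3, h4⟩⟩

theorem NBP.shorten [Fintype Q] (M : NBP V K Q) {q q' : Q} {L : List (Option (V × K × K × K))}
    (hL : M.Run q L q') : ∃ L', M.Run q L' q' ∧ L'.length ≤ Fintype.card Q ∧ ∀ ℓ ∈ L', ℓ ∈ L := by
  classical
  have hex : ∃ n : ℕ, ∃ L' : List (Option (V × K × K × K)), L'.length = n ∧ M.Run q L' q' ∧
      ∀ ℓ ∈ L', ℓ ∈ L := ⟨L.length, L, rfl, hL, fun _ h => h⟩
  obtain ⟨L', hlen, hrun, hsub⟩ := Nat.find_spec hex
  refine ⟨L', hrun, ?_, hsub⟩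
  have hst : ∀ i : ℕ, ∃ s, M.Run q (L'.take i) s ∧ M.Run s (L'.drop i) q' := by
    intro i
    rw [← M.run_append, List.take_append_drop]
    exact hrun
  choose s hs1 hs2 using hst
  have hinj : Function.Injective (fun i : Fin (L'.length + 1) => s i.val) := by
    intro i j hij
    have aux : ∀ i j : ℕ, i < j → j ≤ L'.length → s i ≠ s j := by
      intro i j hij hj he
      have h1 : M.Run q (L'.take i ++ L'.drop j) q' := by
        rw [M.run_append]
        exact ⟨s i, hs1 i, he ▸ hs2 j⟩
      have h2 : (L'.take i ++ L'.drop j).length < Nat.find hex := by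
        rw [List.length_append, List.length_take, List.length_drop]
        omega
      refine Nat.find_min hex h2 ⟨_, rfl, h1, ?_⟩
      intro ℓ hℓ
      rw [List.mem_append] at hℓ
      rcases hℓ with hℓ | hℓ
      · exact hsub _ (List.mem_of_mem_take hℓ)
      · exact hsub _ (List.mem_of_mem_drop hℓ)
    rcases lt_trichotomy i.val j.val with h5 | h5 | h5
    · exact absurd hij (aux _ _ h5 (by have := j.isLt; omega))
    · exact Fin.ext h5
    · exact absurd hij.symm (aux _ _ h5 (by have := i.isLt; omega))
  have := Fintype.card_le_of_injective _ hinj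
  rw [Fintype.card_fin] at this
  omega

theorem NBP.Acc.shorten [Fintype Q] {M : NBP V K Q} {f : V → K → K → K}
    {L : List (Option (V × K × K × K))} (hL : M.Acc f L) :
    ∃ L', M.Acc f L' ∧ L'.length ≤ Fintype.card Q := by
  obtain ⟨⟨q, hrun, hf⟩, hc⟩ := hL
  obtain ⟨L', h1, h2, h3⟩ := M.shorten hrun
  exact ⟨L', ⟨⟨q, h1, hf⟩, fun v x y z hz => hc v x y z (h3 _ hz)⟩, h2⟩

end Pool.Agent.Bfly
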