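import Pool.Agent.Bfly.Cnt
import Pool.Agent.Thrift.Final

/-!
# The lower bound
-/

set_option autoImplicit false

namespace Pool.Agent.Bfly

theorem bound (μ H k : ℕ) (hμ : 2 ≤ μ) (hH : 1 ≤ H) (z z' : Fin k) (hz : z ≠ z')
    (hk : 48 * (μ * H) < k)
    {Q : Type} [Fintype Q] (M : NBP (Node μ (μ * H)) (Fin k) Q)
    (hM : ∀ f, (∃ L, M.Acc f L) ↔ ∀ x, value z f (μ * H) x = z')
    (s w : ℕ) (hs : Fintype.card Q ≤ 2 ^ s)
    (hT : Fintype.card Q < 2 ^ (H - 1) ∨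
      ∀ f, (∀ x, value z f (μ * H) x = z') → ∃ L, M.Acc f L ∧ L.length < 2 ^ (H - 1))
    (hw : ∀ f L, M.Acc f L → (wrong z f L).ncard ≤ w) :
    2 ^ μ ≤ 16 * s + 24 * w * (Nat.log 2 (μ * H * 2 ^ μ * k ^ 2) + 1) := by
  classical
  have hM1 : ∀ f L, M.Acc f L → ∀ x, value z f (μ * H) x = z' := fun f L h => (hM f).1 ⟨L, h⟩
  have hpos : 0 < μ * H := by positivity
  have hacc : ∀ a : Node μ (μ * H) → Fin k, (∀ v, a v ≠ z) →
      (∀ v, v.1.val + 1 = μ * H → a v = z') →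
      ∃ L, M.Acc (opA z a) L ∧ L.length < 2 ^ (H - 1) := by
    intro a _ htop
    have hval : ∀ x, value z (opA z a) (μ * H) x = z' := by
      intro x
      have h1 := value_opP (z := z) (P := fun v p => p = var z a v) (a := a) (fun v => rfl)
        (μ * H - 1) (by omega) x
      rw [Nat.sub_add_cancel hpos] at h1
      unfold opA
      rw [h1]
      exact htop _ (by simp only; omega)
    rcases hT with hT | hT
    · obtain ⟨L, hL⟩ := (hM _).2 hval
      obtain ⟨L', h3, h4⟩ := hL.shorten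
      exact ⟨L', h3, lt_of_le_of_lt h4 hT⟩
    · exact hT _ hval
  set e := (2 ^ μ + 7) / 8 with he
  have hmain := main_count (e := e) hμ hH M hz.symm hM1 hw hacc (by omega)
  set N := μ * H * 2 ^ μ with hN
  have hcN : Fintype.card (Node μ (μ * H)) = N := by
    rw [Fintype.card_prod, Fintype.card_fin, Fintype.card_fun, Fintype.card_bool, Fintype.card_fin]
  have hcK : Fintype.card {y : Fin k // y ≠ z} = k - 1 := by
    rw [Fintype.card_subtype_compl, Fintype.card_fin, Fintype.card_unique]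
  have hcNK : Fintype.card (Node μ (μ * H) × Fin k × Fin k) = N * k ^ 2 := by
    rw [Fintype.card_prod, hcN, Fintype.card_prod, Fintype.card_fin, sq]
  rw [hcN, hcK, hcNK] at hmain
  set l := Nat.log 2 (N * k ^ 2) + 1 with hl
  have hml : N * k ^ 2 < 2 ^ l := Nat.lt_pow_succ_log_self (by norm_num) _
  have hk1 : 1 ≤ k - 1 := by omega
  -- the estimates
  have f1 : (N * (k - 1) + 1) ^ (2 * w) ≤ 2 ^ (l * (2 * w)) := by
    rw [pow_mul 2 l]
    refine Nat.pow_le_pow_left ?_ _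
    have : N * (k - 1) ≤ N * k ^ 2 := Nat.mul_le_mul_left _ (by nlinarith [Nat.sub_le k 1])
    omega
  have f2 : Fintype.card Q ^ 2 ≤ 2 ^ (s * 2) := by
    rw [pow_mul]
    exact Nat.pow_le_pow_left hs _
  have f3 : (N * k ^ 2 + 1) ^ w ≤ 2 ^ (l * w) := by
    rw [pow_mul 2 l]
    exact Nat.pow_le_pow_left (by omega) _
  set Z := 2 * s + 3 * (w * l) with hZ
  have f4 : (k - 1) ^ e ≤ 2 ^ Z * N.choose e := by
    refine hmain.trans ?_
    calc (N * (k - 1) + 1) ^ (2 * w) * (Fintype.card Q ^ 2 * (N * k ^ 2 + 1) ^ w * N.choose e)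
        ≤ 2 ^ (l * (2 * w)) * (2 ^ (s * 2) * 2 ^ (l * w) * N.choose e) :=
          Nat.mul_le_mul f1 (Nat.mul_le_mul_right _ (Nat.mul_le_mul f2 f3))
      _ = 2 ^ Z * N.choose e := by
          rw [← mul_assoc, ← mul_assoc, ← pow_add, ← pow_add]
          congr 2
          rw [hZ]; ring
  have f5 : N.choose e * e.factorial ≤ N ^ e := by
    rw [mul_comm, ← Nat.descFactorial_eq_factorial_mul_choose]
    exact Nat.descFactorial_le_pow N e
  have f6 := Pool.Agent.Thrift.pow_le_factorial e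
  have f7 : (k - 1) ^ e * e ^ e ≤ 2 ^ Z * (3 * N) ^ e := by
    calc (k - 1) ^ e * e ^ e ≤ (2 ^ Z * N.choose e) * (3 ^ e * e.factorial) :=
          Nat.mul_le_mul f4 f6
      _ = 2 ^ Z * 3 ^ e * (N.choose e * e.factorial) := by ring
      _ ≤ 2 ^ Z * 3 ^ e * N ^ e := Nat.mul_le_mul_left _ f5
      _ = _ := by rw [mul_pow]; ring
  have f8 : 6 * N ≤ (k - 1) * e := by
    have e1 : 2 ^ μ ≤ 8 * e := by omega
    calc 6 * N = 6 * (μ * H) * 2 ^ μ := by rw [hN]; ring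
      _ ≤ 6 * (μ * H) * (8 * e) := Nat.mul_le_mul_left _ e1
      _ = 48 * (μ * H) * e := by ring
      _ ≤ _ := Nat.mul_le_mul_right _ (by omega)
  have he0 : 0 < e := by
    have : 0 < 2 ^ μ := by positivity
    omega
  have f9 : 2 ^ e * ((k - 1) ^ e * e ^ e) ≤ 2 ^ Z * ((k - 1) ^ e * e ^ e) := by
    calc 2 ^ e * ((k - 1) ^ e * e ^ e) ≤ 2 ^ e * (2 ^ Z * (3 * N) ^ e) :=
          Nat.mul_le_mul_left _ f7
      _ = 2 ^ Z * (6 * N) ^ e := by
          rw [show 6 * N = 2 * (3 * N) by ring, mul_pow 2 (3 * N)]; ring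
      _ ≤ 2 ^ Z * ((k - 1) * e) ^ e := Nat.mul_le_mul_left _ (Nat.pow_le_pow_left f8 _)
      _ = _ := by rw [mul_pow]
  have f10 : 2 ^ e ≤ 2 ^ Z := Nat.le_of_mul_le_mul_right f9 (by positivity)
  have f11 : e ≤ Z := (Nat.pow_le_pow_iff_right (by norm_num : 1 < 2)).1 f10
  have f12 : 24 * w * l = 8 * (3 * (w * l)) := by ring
  have f13 : 2 ^ μ ≤ 8 * e := by omega
  omega

end Pool.Agent.Bfly
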