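import Pool.Agent.Bfly.GenOp
import Pool.Agent.Bfly.Fin

/-!
# The lower bound for the generation problem
-/

set_option autoImplicit false

namespace Pool.Agent.Bfly

open Pool.Agent.Thrift (Gen)

theorem gen_bound_fixed {X Q : Type} [Fintype X] [Fintype Q] {g t : X} (hgt : g ≠ t)
    (M : Thrift.NBP X Q) (hM : M.Solves g t) (w s τ : ℕ) (hs : Fintype.card Q ≤ 2 ^ s)
    (hT : Fintype.card Q ≤ 2 ^ τ ∨
      ∀ op : X → X → X, Gen op g t → ∃ L, M.Acc op L ∧ L.length ≤ 2 ^ τ)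
    (hw : ∀ op L, M.Acc op L → (Thrift.wrong op g L).ncard ≤ w)
    {μ H k : ℕ} (hμ : 2 ≤ μ) (hH : H = τ + 2) (hk : k = 48 * (μ * H) + 1)
    (hm : 2 * (2 ^ μ + 1) + μ * H * 2 ^ μ * k ≤ Fintype.card X) :
    2 ^ μ ≤ 16 * s + 24 * w * (Nat.log 2 (μ * H * 2 ^ μ * k ^ 2) + 1) := by
  classical
  have hH1 : 1 ≤ H := by omega
  have hpos : 0 < μ * H := by positivity
  have hk2 : 2 ≤ k := by omega
  have : NeZero k := ⟨by omega⟩
  set z : Fin k := ⟨0, by omega⟩ with hz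
  set z' : Fin k := ⟨1, by omega⟩ with hz'
  have hzz : z ≠ z' := by
    rw [hz, hz', Ne, Fin.mk.injEq]
    omega
  obtain ⟨e, he, heg, het⟩ := Thrift.exists_emb (Y := El μ (μ * H) (Fin k)) (X := X)
    (by rw [card_El, Fintype.card_fin]; exact hm) (g := El.c 0) (t := El.d (Fin.last _))
    (by intro h5; cases h5) hgt
  set N := M.restrict e (El.c 0 : El μ (μ * H) (Fin k)) with hN
  set M' := sim N (cell z) (con z') El.val with hM'
  have hHτ : 2 ^ τ < 2 ^ (H - 1) := Nat.pow_lt_pow_right (by norm_num) (by omega)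
  -- from the evaluation program to the given program
  have hto : ∀ f L, M'.Acc f L → ∃ L'', M.Acc (Thrift.extOp e (e (El.c 0)) (opE z z' f)) L'' ∧
      (wrong z f L).ncard ≤
        (Thrift.wrong (Thrift.extOp e (e (El.c 0)) (opE z z' f)) (e (El.c 0)) L'').ncard := by
    intro f L hL
    obtain ⟨L', h1, h2⟩ := sim_acc hL
    obtain ⟨L'', h3, h4⟩ := Thrift.restrict_acc he h1
    refine ⟨L'', h3, (sim_wrong (g := El.c 0) ?_ h2).trans (Thrift.restrict_wrong he h4)⟩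
    intro x y v a b hc hx hy
    exact cell_right hc (gen_G hx) (gen_G hy)
  have hfrom : ∀ f L'', M.Acc (Thrift.extOp e (e (El.c 0)) (opE z z' f)) L'' →
      ∃ L, M'.Acc f L ∧ L.length = L''.length := by
    intro f L'' hL
    obtain ⟨L', h1, h2⟩ := Thrift.acc_restrict he hL
    obtain ⟨L, h3, h4⟩ := acc_sim h1
    exact ⟨L, h3, h4.trans h2⟩
  have hgen : ∀ f : Tab μ (μ * H) (Fin k),
      Gen (Thrift.extOp e (e (El.c 0)) (opE z z' f)) g t ↔ ∀ x, value z f (μ * H) x = z' := by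
    intro f
    rw [← heg, ← het, Thrift.gen_extOp he, gen_target hpos]
  refine bound μ H k hμ hH1 z z' hzz (by omega) M' ?_ s w hs ?_ ?_
  · intro f
    rw [← hgen f]
    constructor
    · rintro ⟨L, hL⟩
      obtain ⟨L'', h1, -⟩ := hto f L hL
      exact (hM _).1 ⟨L'', h1⟩
    · intro h
      obtain ⟨L'', h1⟩ := (hM _).2 h
      obtain ⟨L, h2, -⟩ := hfrom f L'' h1
      exact ⟨L, h2⟩
  · rcases hT with hT | hT
    · exact Or.inl (lt_of_le_of_lt hT hHτ)
    · right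
      intro f hf
      obtain ⟨L'', h1, h2⟩ := hT _ ((hgen f).2 hf)
      obtain ⟨L, h3, h4⟩ := hfrom f L'' h1
      exact ⟨L, h3, by omega⟩
  · intro f L hL
    obtain ⟨L'', h1, h2⟩ := hto f L hL
    rw [heg] at h1 h2
    exact h2.trans (hw _ _ h1)

/-- the number of elements used -/
def sz (H μ : ℕ) : ℕ := 2 * (2 ^ μ + 1) + μ * H * 2 ^ μ * (48 * (μ * H) + 1)

theorem gen_bound {X Q : Type} [Fintype X] [Fintype Q] {g t : X} (hgt : g ≠ t)
    (M : Thrift.NBP X Q) (hM : M.Solves g t) (w s τ : ℕ) (hτ : 1 ≤ τ)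
    (hs : Fintype.card Q ≤ 2 ^ s)
    (hT : Fintype.card Q ≤ 2 ^ τ ∨
      ∀ op : X → X → X, Gen op g t → ∃ L, M.Acc op L ∧ L.length ≤ 2 ^ τ)
    (hw : ∀ op L, M.Acc op L → (Thrift.wrong op g L).ncard ≤ w) :
    Fintype.card X ≤ 50000 * τ ^ 2 * (Nat.log 2 (Fintype.card X) + 1) ^ 2 *
      (s + w * (Nat.log 2 (Fintype.card X) + 1) + 1) := by
  classical
  set m := Fintype.card X with hmX
  set l := Nat.log 2 m + 1 with hl
  have hl1 : 1 ≤ l := by omega
  have hml : m < 2 ^ l := Nat.lt_pow_succ_log_self (by norm_num) m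
  set H := τ + 2 with hH
  have hH3 : H ≤ 3 * τ := by omega
  rcases Nat.lt_or_ge m (sz H 2) with hsmall | hbig
  · have h1 : sz H 2 ≤ 50000 * τ ^ 2 := by
      unfold sz
      have e1 : 2 * H * 2 ^ 2 * (48 * (2 * H) + 1) ≤ 2 * (3 * τ) * 2 ^ 2 * (48 * (2 * (3 * τ)) + 1) :=
        Nat.mul_le_mul (Nat.mul_le_mul_right _ (Nat.mul_le_mul_left _ hH3)) (by omega)
      nlinarith
    calc m ≤ 50000 * τ ^ 2 * 1 ^ 2 * 1 := by omega
      _ ≤ 50000 * τ ^ 2 * l ^ 2 * (s + w * l + 1) :=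
        Nat.mul_le_mul (Nat.mul_le_mul_left _ (Nat.pow_le_pow_left hl1 2)) (by omega)
  · -- the largest possible `μ`
    have hsz : ∀ μ, 2 ^ μ ≤ sz H μ := by
      intro μ
      unfold sz
      omega
    have hbd : ∀ μ, sz H μ ≤ m → μ ≤ l := by
      intro μ h1
      have h2 : 2 ^ μ < 2 ^ l := lt_of_le_of_lt ((hsz μ).trans h1) hml
      exact ((Nat.pow_lt_pow_iff_right (by norm_num : 1 < 2)).1 h2).le
    set μ := Nat.findGreatest (fun μ => sz H μ ≤ m) l with hμ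
    have hμ1 : sz H μ ≤ m := Nat.findGreatest_spec (P := fun μ => sz H μ ≤ m) (hbd 2 hbig) hbig
    have hμ2 : 2 ≤ μ := Nat.le_findGreatest (hbd 2 hbig) hbig
    have hμ3 : m < sz H (μ + 1) := by
      by_contra h1
      push Not at h1
      have h2 : μ + 1 ≤ μ := Nat.le_findGreatest (hbd _ h1) h1
      omega
    have hμl : μ + 1 ≤ l := by
      have h2 : 2 ^ μ < 2 ^ l := lt_of_le_of_lt ((hsz μ).trans hμ1) hml
      have := (Nat.pow_lt_pow_iff_right (by norm_num : 1 < 2)).1 h2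
      omega
    set k := 48 * (μ * H) + 1 with hk
    have hb := gen_bound_fixed hgt M hM w s τ hs hT hw hμ2 hH hk (by
      have := hμ1
      unfold sz at this
      rw [← hmX]
      exact this)
    have hn : Nat.log 2 (μ * H * 2 ^ μ * k ^ 2) + 1 ≤ 2 * l := by
      have e1 : μ * H * 2 ^ μ * k ≤ m := by
        have := hμ1
        unfold sz at this
        rw [← hk] at this
        omega
      have e2 : 0 < μ * H * 2 ^ μ := by positivity
      have e3 : k ≤ m := (Nat.le_mul_of_pos_left k e2).trans e1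
      have e4 : μ * H * 2 ^ μ * k ^ 2 < 2 ^ (2 * l) := by
        calc μ * H * 2 ^ μ * k ^ 2 = μ * H * 2 ^ μ * k * k := by ring
          _ ≤ m * m := Nat.mul_le_mul e1 e3
          _ < 2 ^ l * 2 ^ l := Nat.mul_lt_mul'' hml hml
          _ = _ := by rw [two_mul l, pow_add 2 l l]
      have e5 : μ * H * 2 ^ μ * k ^ 2 ≠ 0 := by
        have : 0 < k := by omega
        positivity
      have := (Nat.log_lt_iff_lt_pow (by norm_num) e5).2 e4
      omega
    have hb2 : 2 ^ μ ≤ 48 * (s + w * l) := by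
      calc 2 ^ μ ≤ 16 * s + 24 * w * (2 * l) := hb.trans (Nat.add_le_add_left
            (Nat.mul_le_mul_left _ hn) _)
        _ ≤ _ := by nlinarith
    have hF : sz H (μ + 1) ≤ 927 * l ^ 2 * τ ^ 2 * 2 ^ μ := by
      have e1 : (μ + 1) * H ≤ l * (3 * τ) := Nat.mul_le_mul hμl hH3
      have e2 : 1 ≤ l * τ := Nat.mul_pos hl1 hτ
      set A := l * τ with hA
      have e3 : (μ + 1) * H ≤ 3 * A := by
        calc _ ≤ l * (3 * τ) := e1
          _ = 3 * A := by rw [hA]; ring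
      have e4 : sz H (μ + 1) = 2 * (2 * 2 ^ μ + 1) +
          2 * ((μ + 1) * H) * (48 * ((μ + 1) * H) + 1) * 2 ^ μ := by
        unfold sz
        rw [pow_succ]
        ring
      have e5 : 2 * ((μ + 1) * H) * (48 * ((μ + 1) * H) + 1) ≤ 2 * (3 * A) * (48 * (3 * A) + 1) :=
        Nat.mul_le_mul (Nat.mul_le_mul_left _ e3) (by omega)
      have e6 : 2 * (3 * A) * (48 * (3 * A) + 1) ≤ 870 * A ^ 2 := by nlinarith
      have e7 : 1 ≤ 2 ^ μ := Nat.one_le_two_pow
      have e8 : 1 ≤ A ^ 2 := Nat.one_le_pow _ _ e2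
      have e9 : 2 * (2 * 2 ^ μ + 1) ≤ 6 * (A ^ 2 * 2 ^ μ) := by
        have : 1 * 2 ^ μ ≤ A ^ 2 * 2 ^ μ := Nat.mul_le_mul_right _ e8
        omega
      calc sz H (μ + 1) ≤ 6 * (A ^ 2 * 2 ^ μ) + 870 * A ^ 2 * 2 ^ μ := by
            rw [e4]
            exact Nat.add_le_add e9 (Nat.mul_le_mul_right _ (e5.trans e6))
        _ = 876 * (A ^ 2 * 2 ^ μ) := by ring
        _ ≤ 927 * (A ^ 2 * 2 ^ μ) := Nat.mul_le_mul_right _ (by norm_num)
        _ = _ := by rw [hA]; ring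
    calc m ≤ 927 * l ^ 2 * τ ^ 2 * 2 ^ μ := hμ3.le.trans hF
      _ ≤ 927 * l ^ 2 * τ ^ 2 * (48 * (s + w * l)) := Nat.mul_le_mul_left _ hb2
      _ = 44496 * (l ^ 2 * τ ^ 2 * (s + w * l)) := by ring
      _ ≤ 50000 * (l ^ 2 * τ ^ 2 * (s + w * l + 1)) :=
        Nat.mul_le_mul (by norm_num) (Nat.mul_le_mul_left _ (Nat.le_succ _))
      _ = _ := by ring

end Pool.Agent.Bfly
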