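import Pool.Agent.Bfly.GenSim

/-!
# The generation problem which evaluates stacked butterflies
-/

set_option autoImplicit false

namespace Pool.Agent.Bfly

open Pool.Agent.Thrift (Gen)

/-- The elements: a chain of constants, the values of the nodes, and a chain which collects the
values of the top layer. -/
inductive El (μ T : ℕ) (K : Type) : Type
  | c (j : Fin (2 ^ μ + 1)) : El μ T K
  | d (j : Fin (2 ^ μ + 1)) : El μ T K
  | val (v : Node μ T) (a : K) : El μ T K

variable {μ T : ℕ} {K Q : Type}

/-- The elements as a sum. -/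
def El.equiv : El μ T K ≃ (Fin (2 ^ μ + 1) ⊕ Fin (2 ^ μ + 1)) ⊕ (Node μ T × K) where
  toFun x := match x with
    | .c j => Sum.inl (Sum.inl j)
    | .d j => Sum.inl (Sum.inr j)
    | .val v a => Sum.inr (v, a)
  invFun x := match x with
    | Sum.inl (Sum.inl j) => .c j
    | Sum.inl (Sum.inr j) => .d j
    | Sum.inr (v, a) => .val v a
  left_inv x := by cases x <;> rfl
  right_inv x := by rcases x with (j | j) | ⟨v, a⟩ <;> rfl

noncomputable instance [Fintype K] : Fintype (El μ T K) := Fintype.ofEquiv _ El.equiv.symm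

theorem card_El [Fintype K] :
    Fintype.card (El μ T K) = 2 * (2 ^ μ + 1) + T * 2 ^ μ * Fintype.card K := by
  rw [Fintype.card_congr El.equiv, Fintype.card_sum, Fintype.card_sum, Fintype.card_prod,
    Fintype.card_prod, Fintype.card_fin, Fintype.card_fin, Fintype.card_fun, Fintype.card_bool,
    Fintype.card_fin]
  ring

/-- An enumeration of the positions. -/
noncomputable def en (μ : ℕ) : Pos μ ≃ Fin (2 ^ μ) :=
  Fintype.equivFinOfCardEq (by rw [Fintype.card_fun, Fintype.card_bool, Fintype.card_fin])

open Classical in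
/-- The cell which gives the product of two elements. -/
noncomputable def cell (z : K) : El μ T K → El μ T K → Option (Node μ T × K × K)
  | .c i, .c j => if h : i = j ∧ 0 < j.val ∧ 0 < T then
      some ((⟨0, h.2.2⟩, (en μ).symm ⟨j.val - 1, by have := j.2; omega⟩), z, z) else none
  | .val v a, .val v' b => if h : v.1.val + 1 < T ∧ v' = (v.1, flip (v.1.val + 1) v.2) then
      some ((⟨v.1.val + 1, h.1⟩, v.2), a, b) else none
  | _, _ => none

open Classical in
/-- The other products. -/
noncomputable def con (z' : K) : El μ T K → El μ T K → El μ T K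
  | .c i, .c j => if h : j.val = 0 ∧ i.val < 2 ^ μ then .c ⟨i.val + 1, by omega⟩
      else if i.val = 0 ∧ j.val = 1 then .d 0 else .c 0
  | .d j, .val v a => if h : j.val < 2 ^ μ ∧ v.1.val + 1 = T ∧ en μ v.2 = j.val ∧ a = z' then
      .d ⟨j.val + 1, by omega⟩ else .c 0
  | _, _ => .c 0

/-- The operation for the input `f`. -/
noncomputable def opE (z z' : K) (f : Tab μ T K) : El μ T K → El μ T K → El μ T K :=
  mkOp (cell z) (con z') El.val f

/-- The generated elements. -/
def G (z z' : K) (f : Tab μ T K) : El μ T K → Prop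
  | .c _ => True
  | .d j => ∀ x, (en μ x).val < j.val → value z f T x = z'
  | .val v a => a = value z f (v.1.val + 1) v.2

theorem value_succ {z : K} {f : Tab μ T K} (v : Node μ T) :
    value z f (v.1.val + 1) v.2 = f v (value z f v.1 v.2) (value z f v.1 (flip v.1 v.2)) := by
  rw [value, dif_pos v.1.2]

theorem cell_right {z z' : K} {f : Tab μ T K} {x y : El μ T K} {v : Node μ T} {a b : K}
    (h : cell z x y = some (v, a, b)) (hx : G z z' f x) (hy : G z z' f y) :
    a = value z f v.1 v.2 ∧ b = value z f v.1 (flip v.1 v.2) := by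
  rcases x with i | i | ⟨u, a'⟩ <;> rcases y with j | j | ⟨u', b'⟩ <;>
    simp only [cell, reduceCtorEq] at h
  · split_ifs at h with h1
    have h2 := Option.some.inj h
    have h3 := (Prod.mk.inj h2).1
    obtain ⟨h4, h5⟩ := Prod.mk.inj (Prod.mk.inj h2).2
    subst h3 h4 h5
    exact ⟨rfl, rfl⟩
  · split_ifs at h with h1
    have h2 := Option.some.inj h
    have h3 := (Prod.mk.inj h2).1
    obtain ⟨h4, h5⟩ := Prod.mk.inj (Prod.mk.inj h2).2
    subst h3 h4 h5
    simp only [G] at hx hy
    exact ⟨hx, hy.trans (congrArg (fun v : Node μ T => value z f (v.1.val + 1) v.2) h1.2)⟩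

theorem gen_G {z z' : K} {f : Tab μ T K} {x : El μ T K} (h : Gen (opE z z' f) (.c 0) x) :
    G z z' f x := by
  induction h with
  | base => trivial
  | @mul x y _ _ hx hy =>
    unfold opE
    rcases hc : cell z x y with _ | ⟨v, a, b⟩
    · rw [mkOp_none hc]
      rcases x with i | i | ⟨u, a'⟩ <;> rcases y with j | j | ⟨u', b'⟩ <;>
        simp only [con] <;> try trivial
      · split_ifs
        · trivial
        · intro x hx
          simp at hx
        · trivial
      · split_ifs with h1
        · obtain ⟨h2, h3, h4, h5⟩ := h1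
          intro x hxj
          simp only at hxj
          rcases Nat.lt_succ_iff_lt_or_eq.1 hxj with h6 | h6
          · exact hx x h6
          · have h7 : x = u'.2 := (en μ).injective (Fin.ext (by rw [h6, h4]))
            simp only [G] at hy
            rw [h7, ← h5, hy, h3]
        · trivial
    · rw [mkOp_some hc]
      simp only [G]
      rw [value_succ]
      obtain ⟨h1, h2⟩ := cell_right hc hx hy
      rw [h1, h2]

theorem gen_c {z z' : K} {f : Tab μ T K} : ∀ (j : ℕ) (hj : j < 2 ^ μ + 1),
    Gen (opE z z' f) (.c 0) (.c ⟨j, hj⟩) := by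
  intro j
  induction j with
  | zero => intro _; exact Gen.base
  | succ j ih =>
    intro hj
    have h1 := Gen.mul (ih (by omega)) (Gen.base (op := opE z z' f) (g := .c 0))
    have h2 : opE z z' f (.c ⟨j, by omega⟩) (.c 0) = .c ⟨j + 1, hj⟩ := by
      unfold opE
      rw [mkOp_none]
      · simp only [con]
        rw [dif_pos ⟨rfl, (by omega : j < 2 ^ μ)⟩]
      · simp [cell]
    rwa [h2] at h1

theorem gen_val {z z' : K} {f : Tab μ T K} : ∀ (t : ℕ) (ht : t < T) (x : Pos μ),
    Gen (opE z z' f) (.c 0) (.val (⟨t, ht⟩, x) (value z f (t + 1) x)) := by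
  intro t
  induction t with
  | zero =>
    intro ht x
    have h0 : (en μ x).val + 1 < 2 ^ μ + 1 := by have := (en μ x).2; omega
    have h1 := Gen.mul (gen_c (z := z) (z' := z') (f := f) ((en μ x).val + 1) h0)
      (gen_c (z := z) (z' := z') (f := f) ((en μ x).val + 1) h0)
    have h2 : opE z z' f (.c ⟨(en μ x).val + 1, h0⟩) (.c ⟨(en μ x).val + 1, h0⟩) =
        .val (⟨0, ht⟩, x) (value z f (0 + 1) x) := by
      unfold opE
      have hc : cell z (.c ⟨(en μ x).val + 1, h0⟩) (.c ⟨(en μ x).val + 1, h0⟩) =
          some (((⟨0, ht⟩, x) : Node μ T), z, z) := by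
        simp [cell, ht]
      rw [mkOp_some hc, value, dif_pos ht]
      rfl
    rwa [h2] at h1
  | succ t ih =>
    intro ht x
    have h1 := Gen.mul (ih (by omega) x) (ih (by omega) (flip (t + 1) x))
    have h2 : opE z z' f (.val (⟨t, by omega⟩, x) (value z f (t + 1) x))
        (.val (⟨t, by omega⟩, flip (t + 1) x) (value z f (t + 1) (flip (t + 1) x))) =
        .val (⟨t + 1, ht⟩, x) (value z f (t + 1 + 1) x) := by
      unfold opE
      have hc : cell z (.val (⟨t, by omega⟩, x) (value z f (t + 1) x))
          (.val (⟨t, by omega⟩, flip (t + 1) x) (value z f (t + 1) (flip (t + 1) x))) =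
          some (((⟨t + 1, ht⟩, x) : Node μ T), value z f (t + 1) x,
            value z f (t + 1) (flip (t + 1) x)) := by
        simp [cell, ht]
      rw [mkOp_some hc]
      exact congrArg _ (value_succ (z := z) (f := f) ((⟨t + 1, ht⟩, x) : Node μ T)).symm
    rwa [h2] at h1

theorem gen_d (hT : 0 < T) {z z' : K} {f : Tab μ T K} (hz : ∀ x, value z f T x = z') :
    ∀ (j : ℕ) (hj : j < 2 ^ μ + 1), Gen (opE z z' f) (.c 0) (.d ⟨j, hj⟩) := by
  have hpos : 0 < 2 ^ μ := by positivity
  intro j
  induction j with
  | zero =>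
    intro hj
    have h1 := Gen.mul (Gen.base (op := opE z z' f) (g := .c 0))
      (gen_c (z := z) (z' := z') (f := f) 1 (by omega))
    have h2 : opE z z' f (.c 0) (.c ⟨1, by omega⟩) = .d ⟨0, hj⟩ := by
      unfold opE
      rw [mkOp_none]
      · simp only [con]
        rw [dif_neg (by simp), if_pos (by simp)]
        rfl
      · simp only [cell]
        rw [dif_neg]
        rintro ⟨h3, -⟩
        have := congrArg Fin.val h3
        simp at this
    rwa [h2] at h1
  | succ j ih =>
    intro hj
    set x : Pos μ := (en μ).symm ⟨j, by omega⟩ with hx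
    have h1 := Gen.mul (ih (by omega)) (gen_val (z := z) (z' := z') (f := f) (T - 1)
      (by omega) x)
    have h2 : opE z z' f (.d ⟨j, by omega⟩) (.val (⟨T - 1, by omega⟩, x)
        (value z f (T - 1 + 1) x)) = .d ⟨j + 1, hj⟩ := by
      unfold opE
      rw [mkOp_none (by simp [cell])]
      simp only [con]
      rw [dif_pos]
      refine ⟨(by omega : j < 2 ^ μ), (by omega : T - 1 + 1 = T), ?_, ?_⟩
      · rw [hx]
        simp
      · rw [Nat.sub_add_cancel hT]
        exact hz x
    rwa [h2] at h1

theorem gen_target (hT : 0 < T) {z z' : K} {f : Tab μ T K} :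
    Gen (opE z z' f) (.c 0) (.d (Fin.last _)) ↔ ∀ x, value z f T x = z' := by
  constructor
  · intro h x
    exact gen_G h x (by simp)
  · intro h
    exact gen_d hT h (2 ^ μ) (by omega)

end Pool.Agent.Bfly
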