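import Pool.Agent.Bfly.Defs
import Pool.Agent.Thrift.Transfer

/-!
# Programs for the generation problem as programs for the evaluation problem
-/

set_option autoImplicit false

namespace Pool.Agent.Bfly

open Pool.Agent.Thrift (Gen)

variable {V K Y Q : Type}

/-- The operation on `Y` given by the functions `f v`. -/
def mkOp (cell : Y → Y → Option (V × K × K)) (con : Y → Y → Y) (out : V → K → Y)
    (f : V → K → K → K) (x y : Y) : Y :=
  match cell x y with
  | some (v, a, b) => out v (f v a b)
  | none => con x y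

theorem mkOp_some {cell : Y → Y → Option (V × K × K)} {con : Y → Y → Y} {out : V → K → Y}
    {f : V → K → K → K} {x y : Y} {v : V} {a b : K} (h : cell x y = some (v, a, b)) :
    mkOp cell con out f x y = out v (f v a b) := by
  unfold mkOp
  rw [h]

theorem mkOp_none {cell : Y → Y → Option (V × K × K)} {con : Y → Y → Y} {out : V → K → Y}
    {f : V → K → K → K} {x y : Y} (h : cell x y = none) :
    mkOp cell con out f x y = con x y := by
  unfold mkOp
  rw [h]

/-- The program for the functions obtained from a program for the operation. -/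
def sim (M : Thrift.NBP Y Q) (cell : Y → Y → Option (V × K × K)) (con : Y → Y → Y)
    (out : V → K → Y) : NBP V K Q where
  start := M.start
  acc := M.acc
  edge q ℓ q' := match ℓ with
    | none => M.edge q none q' ∨ ∃ x y, cell x y = none ∧ M.edge q (some (x, y, con x y)) q'
    | some (v, a, b, r) => ∃ x y, cell x y = some (v, a, b) ∧ M.edge q (some (x, y, out v r)) q'

variable {cell : Y → Y → Option (V × K × K)} {con : Y → Y → Y} {out : V → K → Y}
  {M : Thrift.NBP Y Q} {f : V → K → K → K}

theorem sim_run {q' : Q} : ∀ (L : List (Option (V × K × K × K))) (q : Q),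
    (sim M cell con out).Run q L q' → (∀ v a b r, some (v, a, b, r) ∈ L → f v a b = r) →
    ∃ L', M.Run q L' q' ∧ (∀ x y r, some (x, y, r) ∈ L' → mkOp cell con out f x y = r) ∧
      (∀ v a b r, some (v, a, b, r) ∈ L →
        ∃ x y, cell x y = some (v, a, b) ∧ some (x, y, out v r) ∈ L') := by
  intro L
  induction L with
  | nil => intro q h1 _; exact ⟨[], h1, by simp, by simp⟩
  | cons ℓ L ih =>
    rintro q ⟨p, h1, h2⟩ hc
    obtain ⟨L', h3, h4, h5⟩ := ih p h2 (fun v a b r hr => hc v a b r (List.mem_cons_of_mem _ hr))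
    rcases ℓ with _ | ⟨v, a, b, r⟩
    · have hold : ∀ ℓ' : Option (Y × Y × Y), ∀ v a b r,
          some (v, a, b, r) ∈ (none : Option (V × K × K × K)) :: L →
          ∃ x y, cell x y = some (v, a, b) ∧ some (x, y, out v r) ∈ ℓ' :: L' := by
        intro ℓ' v a b r hr
        rw [List.mem_cons] at hr
        rcases hr with hr | hr
        · exact absurd hr (by simp)
        · obtain ⟨x, y, h6, h7⟩ := h5 v a b r hr
          exact ⟨x, y, h6, List.mem_cons_of_mem _ h7⟩
      rcases h1 with h1 | ⟨x, y, hxy, h1⟩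
      · refine ⟨none :: L', ⟨p, h1, h3⟩, ?_, hold _⟩
        intro x y r hr
        rw [List.mem_cons] at hr
        rcases hr with hr | hr
        · exact absurd hr (by simp)
        · exact h4 x y r hr
      · refine ⟨some (x, y, con x y) :: L', ⟨p, h1, h3⟩, ?_, hold _⟩
        intro x' y' r hr
        rw [List.mem_cons] at hr
        rcases hr with hr | hr
        · rw [Option.some.injEq, Prod.mk.injEq, Prod.mk.injEq] at hr
          obtain ⟨rfl, rfl, rfl⟩ := hr
          exact mkOp_none hxy
        · exact h4 _ _ _ hr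
    · obtain ⟨x, y, hxy, h1⟩ := h1
      have hf := hc v a b r (List.mem_cons_self ..)
      refine ⟨some (x, y, out v r) :: L', ⟨p, h1, h3⟩, ?_, ?_⟩
      · intro x' y' r' hr
        rw [List.mem_cons] at hr
        rcases hr with hr | hr
        · rw [Option.some.injEq, Prod.mk.injEq, Prod.mk.injEq] at hr
          obtain ⟨rfl, rfl, rfl⟩ := hr
          rw [mkOp_some hxy, hf]
        · exact h4 _ _ _ hr
      · intro v' a' b' r' hr
        rw [List.mem_cons] at hr
        rcases hr with hr | hr
        · rw [Option.some.injEq, Prod.mk.injEq, Prod.mk.injEq, Prod.mk.injEq] at hr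
          obtain ⟨rfl, rfl, rfl, rfl⟩ := hr
          exact ⟨x, y, hxy, List.mem_cons_self ..⟩
        · obtain ⟨x', y', h6, h7⟩ := h5 _ _ _ _ hr
          exact ⟨x', y', h6, List.mem_cons_of_mem _ h7⟩

theorem run_sim {q' : Q} : ∀ (L : List (Option (Y × Y × Y))) (q : Q), M.Run q L q' →
    (∀ x y r, some (x, y, r) ∈ L → mkOp cell con out f x y = r) →
    ∃ L', (sim M cell con out).Run q L' q' ∧ (∀ v a b r, some (v, a, b, r) ∈ L' → f v a b = r) ∧
      L'.length = L.length := by
  intro L
  induction L with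
  | nil => intro q h1 _; exact ⟨[], h1, by simp, rfl⟩
  | cons ℓ L ih =>
    rintro q ⟨p, h1, h2⟩ hc
    obtain ⟨L', h3, h4, h5⟩ := ih p h2 (fun x y r hr => hc x y r (List.mem_cons_of_mem _ hr))
    have hnone : M.edge q none p ∨ (∃ x y, cell x y = none ∧ M.edge q (some (x, y, con x y)) p) →
        ∃ L', (sim M cell con out).Run q L' q' ∧
          (∀ v a b r, some (v, a, b, r) ∈ L' → f v a b = r) ∧ L'.length = (ℓ :: L).length := by
      intro h6
      refine ⟨none :: L', ⟨p, h6, h3⟩, ?_, by simp [h5]⟩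
      intro v a b r hr
      rw [List.mem_cons] at hr
      rcases hr with hr | hr
      · exact absurd hr (by simp)
      · exact h4 _ _ _ _ hr
    rcases ℓ with _ | ⟨x, y, r⟩
    · exact hnone (Or.inl h1)
    · have hr := hc x y r (List.mem_cons_self ..)
      rcases hxy : cell x y with _ | ⟨v, a, b⟩
      · rw [mkOp_none hxy] at hr
        refine hnone (Or.inr ⟨x, y, hxy, ?_⟩)
        rw [hr]; exact h1
      · rw [mkOp_some hxy] at hr
        refine ⟨some (v, a, b, f v a b) :: L', ⟨p, ⟨x, y, hxy, ?_⟩, h3⟩, ?_, by simp [h5]⟩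
        · rw [hr]; exact h1
        · intro v' a' b' r' hm
          rw [List.mem_cons] at hm
          rcases hm with hm | hm
          · rw [Option.some.injEq, Prod.mk.injEq, Prod.mk.injEq, Prod.mk.injEq] at hm
            obtain ⟨rfl, rfl, rfl, rfl⟩ := hm
            rfl
          · exact h4 _ _ _ _ hm

theorem sim_acc {L : List (Option (V × K × K × K))} (hL : (sim M cell con out).Acc f L) :
    ∃ L', M.Acc (mkOp cell con out f) L' ∧
      (∀ v a b r, some (v, a, b, r) ∈ L →
        ∃ x y, cell x y = some (v, a, b) ∧ some (x, y, out v r) ∈ L') := by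
  obtain ⟨⟨q, hrun, hf⟩, hc⟩ := hL
  obtain ⟨L', h1, h2, h3⟩ := sim_run L _ hrun hc
  exact ⟨L', ⟨⟨q, h1, hf⟩, h2⟩, h3⟩

theorem acc_sim {L : List (Option (Y × Y × Y))} (hL : M.Acc (mkOp cell con out f) L) :
    ∃ L', (sim M cell con out).Acc f L' ∧ L'.length = L.length := by
  obtain ⟨⟨q, hrun, hf⟩, hc⟩ := hL
  obtain ⟨L', h1, h2, h3⟩ := run_sim L _ hrun hc
  exact ⟨L', ⟨⟨q, h1, hf⟩, h2⟩, h3⟩

theorem sim_wrong [Finite Y] {μ T : ℕ} {cell : Y → Y → Option (Node μ T × K × K)}
    {con : Y → Y → Y} {out : Node μ T → K → Y} {f : Tab μ T K} {g : Y} {z : K}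
    (hg : ∀ x y v a b, cell x y = some (v, a, b) → Gen (mkOp cell con out f) g x →
      Gen (mkOp cell con out f) g y → a = value z f v.1 v.2 ∧ b = value z f v.1 (flip v.1 v.2))
    {L : List (Option (Node μ T × K × K × K))} {L' : List (Option (Y × Y × Y))}
    (hLL : ∀ v a b r, some (v, a, b, r) ∈ L →
        ∃ x y, cell x y = some (v, a, b) ∧ some (x, y, out v r) ∈ L') :
    (wrong z f L).ncard ≤ (Thrift.wrong (mkOp cell con out f) g L').ncard := by
  classical
  have h1 : ∀ c ∈ wrong z f L, ∃ p : Y × Y, cell p.1 p.2 = some c ∧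
      p ∈ Thrift.wrong (mkOp cell con out f) g L' := by
    rintro ⟨v, a, b⟩ ⟨⟨r, hr⟩, hn⟩
    obtain ⟨x, y, h2, h3⟩ := hLL _ _ _ _ hr
    refine ⟨(x, y), h2, ⟨out v r, h3⟩, ?_⟩
    rintro ⟨g1, g2⟩
    exact hn (hg x y v a b h2 g1 g2)
  rcases isEmpty_or_nonempty (Y × Y) with hY | hY
  · have h3 : wrong z f L = ∅ := by
      ext c
      simp only [Set.mem_empty_iff_false, iff_false]
      intro hc
      obtain ⟨p, -⟩ := h1 c hc
      exact hY.elim p
    rw [h3, Set.ncard_empty]
    exact Nat.zero_le _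
  choose! p hp using h1
  refine Set.ncard_le_ncard_of_injOn p (fun c hc => (hp c hc).2) ?_ (Set.toFinite _)
  intro c hc c' hc' hcc
  have h2 := (hp c hc).1
  rw [hcc, (hp c' hc').1] at h2
  exact (Option.some.inj h2).symm

end Pool.Agent.Bfly
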