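import Mathlib
import Pool.Agent.Bfly.Defs

/-!
# The inputs used in the lower bound
-/

set_option autoImplicit false

namespace Pool.Agent.Bfly

variable {μ T : ℕ} {K Q : Type}

/-- The labels of computations. -/
abbrev Lab (μ T : ℕ) (K : Type) : Type := Option (Node μ T × K × K × K)

/-- The arguments at a node for the labeling `a`. -/
def var (z : K) (a : Node μ T → K) (v : Node μ T) : K × K :=
  if v.1.val = 0 then (z, z)
  else (a (⟨v.1.val - 1, by have := v.1.2; omega⟩, v.2),
    a (⟨v.1.val - 1, by have := v.1.2; omega⟩, flip v.1.val v.2))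

/-- The nodes below a node. -/
def ch (v : Node μ T) : Finset (Node μ T) :=
  if v.1.val = 0 then ∅
  else {(⟨v.1.val - 1, by have := v.1.2; omega⟩, v.2),
    (⟨v.1.val - 1, by have := v.1.2; omega⟩, flip v.1.val v.2)}

theorem card_ch (v : Node μ T) : (ch v).card ≤ 2 := by
  unfold ch
  split_ifs
  · simp
  · exact Finset.card_le_two

open Classical in
/-- The input with the value `a v` at the arguments in `P v` and `z` at all other arguments. -/
noncomputable def opP (z : K) (P : Node μ T → K × K → Prop) (a : Node μ T → K) : Tab μ T K :=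
  fun v x y => if P v (x, y) then a v else z

/-- The input for the labeling `a`. -/
noncomputable def opA (z : K) (a : Node μ T → K) : Tab μ T K := opP z (fun v p => p = var z a v) a

theorem opP_pos {z : K} {P : Node μ T → K × K → Prop} {a : Node μ T → K} {v : Node μ T} {x y : K}
    (h : P v (x, y)) : opP z P a v x y = a v := by
  unfold opP; rw [if_pos h]

theorem opP_neg {z : K} {P : Node μ T → K × K → Prop} {a : Node μ T → K} {v : Node μ T} {x y : K}
    (h : ¬ P v (x, y)) : opP z P a v x y = z := by
  unfold opP; rw [if_neg h]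

theorem value_opP {z : K} {P : Node μ T → K × K → Prop} {a : Node μ T → K}
    (hP : ∀ v, P v (var z a v)) : ∀ (t : ℕ) (ht : t < T) (x : Pos μ),
      value z (opP z P a) (t + 1) x = a (⟨t, ht⟩, x) := by
  intro t
  induction t with
  | zero =>
    intro ht x
    simp only [value]
    rw [dif_pos ht]
    apply opP_pos
    have := hP (⟨0, ht⟩, x)
    simpa [var] using this
  | succ t ih =>
    intro ht x
    rw [value, dif_pos ht, ih (by omega) x, ih (by omega) (flip (t + 1) x)]
    apply opP_pos
    have := hP (⟨t + 1, ht⟩, x)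
    simpa [var] using this

theorem var_value {z : K} {P : Node μ T → K × K → Prop} {a : Node μ T → K}
    (hP : ∀ v, P v (var z a v)) (v : Node μ T) :
    var z a v = (value z (opP z P a) v.1 v.2, value z (opP z P a) v.1 (flip v.1 v.2)) := by
  obtain ⟨⟨t, ht⟩, x⟩ := v
  rcases t with _ | t
  · simp [var, value]
  · rw [value_opP hP t (by omega), value_opP hP t (by omega)]
    simp [var]

theorem mem_wrong {z : K} {P : Node μ T → K × K → Prop} {a : Node μ T → K}
    (hP : ∀ v, P v (var z a v)) {L : List (Lab μ T K)} {v : Node μ T} {x y : K} :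
    (v, x, y) ∈ wrong z (opP z P a) L ↔ (∃ r, some (v, x, y, r) ∈ L) ∧ (x, y) ≠ var z a v := by
  rw [var_value hP v]
  simp only [wrong, Set.mem_ofPred_eq, Ne, Prod.mk.injEq]

open Classical in
/-- The nodes whose right arguments are queried in `L`. -/
noncomputable def NN (z : K) (a : Node μ T → K) (L : List (Lab μ T K)) : Finset (Node μ T) :=
  Finset.univ.filter fun v => ∃ r, some (v, (var z a v).1, (var z a v).2, r) ∈ L

/-- The nodes below nodes in `NN z a L` which are not in `NN z a L`. -/
noncomputable def EE (z : K) (a : Node μ T → K) (L : List (Lab μ T K)) : Finset (Node μ T) :=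
  (NN z a L).biUnion ch \ NN z a L

theorem mem_NN {z : K} {a : Node μ T → K} {L : List (Lab μ T K)} {v : Node μ T} :
    v ∈ NN z a L ↔ ∃ r, some (v, (var z a v).1, (var z a v).2, r) ∈ L := by
  simp [NN]

theorem mem_EE {z : K} {a : Node μ T → K} {L : List (Lab μ T K)} {u : Node μ T} :
    u ∈ EE z a L ↔ (∃ v ∈ NN z a L, u ∈ ch v) ∧ u ∉ NN z a L := by
  simp [EE]

/-- Every node is queried. -/
theorem cover (M : NBP (Node μ T) K Q) {z z' : K} (hz : z ≠ z')
    (hM : ∀ f L, M.Acc f L → ∀ x, value z f T x = z') {a : Node μ T → K} (ha : ∀ v, a v ≠ z)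
    {L : List (Lab μ T K)} (hL : M.Acc (opA z a) L) (v₀ : Node μ T) : v₀ ∈ NN z a L := by
  by_contra hv0
  set P : Node μ T → K × K → Prop := fun v p => v ≠ v₀ ∧ p = var z a v with hP
  have hacc : M.Acc (opP z P a) L := by
    refine ⟨hL.1, ?_⟩
    intro v x y r hr
    rw [← hL.2 v x y r hr]
    by_cases hv : (x, y) = var z a v
    · have hvv : v ≠ v₀ := by
        rintro rfl
        apply hv0
        rw [mem_NN, ← hv]
        exact ⟨r, hr⟩
      rw [opP_pos (z := z) (P := P) ⟨hvv, hv⟩]
      exact (opP_pos (z := z) (P := fun v p => p = var z a v) hv).symm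
    · rw [opP_neg (z := z) (P := P) (fun h5 => hv h5.2)]
      exact (opP_neg (z := z) (P := fun v p => p = var z a v) hv).symm
  -- all values in the column of `v₀` from `v₀` on are `z`
  have key : ∀ t, v₀.1.val ≤ t → (ht : t < T) → value z (opP z P a) (t + 1) v₀.2 = z := by
    intro t hvt
    induction t, hvt using Nat.le_induction with
    | base =>
      intro ht
      rw [value, dif_pos ht]
      exact opP_neg (fun h => h.1 rfl)
    | succ t hvt ih =>
      intro ht
      rw [value, dif_pos ht, ih (by omega)]
      apply opP_neg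
      rintro ⟨-, h2⟩
      unfold var at h2
      rw [if_neg (by simp), Prod.mk.injEq] at h2
      exact ha _ h2.1.symm
  have hT : 0 < T := by have := v₀.1.2; omega
  have h1 := hM _ _ hacc v₀.2
  have h2 := key (T - 1) (by have := v₀.1.2; omega) (by omega)
  rw [Nat.sub_add_cancel hT] at h2
  exact hz (h2.symm.trans h1)

end Pool.Agent.Bfly
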