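import Pool.Agent.Bfly.Inp

/-!
# Exchanging windows of two computations
-/

set_option autoImplicit false

namespace Pool.Agent.Bfly

variable {μ T : ℕ} {K Q : Type}

theorem mem_ch {u v : Node μ T} : u ∈ ch v ↔ v.1.val ≠ 0 ∧
    (u = (⟨v.1.val - 1, by have := v.1.2; omega⟩, v.2) ∨
      u = (⟨v.1.val - 1, by have := v.1.2; omega⟩, flip v.1.val v.2)) := by
  unfold ch
  split_ifs with h
  · simp [h]
  · simp [h]

/-- The exchange lemma. -/
theorem swap (M : NBP (Node μ T) K Q) {z : K} {w : ℕ}
    (hw : ∀ f L, M.Acc f L → (wrong z f L).ncard ≤ w)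
    {a a' : Node μ T → K} {L1 L2 L3 L1' L2' L3' : List (Lab μ T K)} {q q' f : Q}
    (h1 : M.Run M.start L1 q) (h3 : M.Run q' L3 f) (hf : M.acc f)
    (h2' : M.Run q L2' q')
    (hc : ∀ v x y r, some (v, x, y, r) ∈ L1 ++ L2 ++ L3 → opA z a v x y = r)
    (hc' : ∀ v x y r, some (v, x, y, r) ∈ L1' ++ L2' ++ L3' → opA z a' v x y = r)
    (hR : wrong z (opA z a) (L1 ++ L2 ++ L3) = wrong z (opA z a') (L1' ++ L2' ++ L3'))
    {E' : Finset (Node μ T)} (hE : E' ⊆ EE z a' L2') (haa : ∀ u, u ∉ E' → a u = a' u)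
    (D : Finset (Node μ T)) (hD : ∀ u ∈ D, u ∈ E' ∧ a u ≠ a' u) :
    D.card ≤ 2 * w := by
  classical
  set P : Node μ T → K × K → Prop := fun v p => p = var z a v ∨ (v ∉ E' ∧ p = var z a' v)
    with hP
  have hPv : ∀ v, P v (var z a v) := fun v => Or.inl rfl
  have hkey : ∀ {b b' : Node μ T → K} {L L' : List (Lab μ T K)},
      wrong z (opA z b) L = wrong z (opA z b') L' →
      ∀ {v : Node μ T} {x y r : K}, some (v, x, y, r) ∈ L → (x, y) = var z b' v →
      (x, y) = var z b v := by
    intro b b' L L' hLL v x y r hx hb'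
    by_contra hb
    have hmem : (v, x, y) ∈ wrong z (opA z b) L :=
      (mem_wrong (P := fun v p => p = var z b v) (fun v => rfl)).2 ⟨⟨r, hx⟩, hb⟩
    rw [hLL] at hmem
    exact ((mem_wrong (P := fun v p => p = var z b' v) (fun v => rfl)).1 hmem).2 hb'
  -- the new computation
  have hacc : M.Acc (opP z P a) (L1 ++ L2' ++ L3) := by
    refine ⟨⟨f, ?_, hf⟩, ?_⟩
    · rw [NBP.run_append]
      refine ⟨q', ?_, h3⟩
      rw [NBP.run_append]
      exact ⟨q, h1, h2'⟩
    · intro v x y r hr
      have hout : some (v, x, y, r) ∈ L1 ++ L2 ++ L3 → opP z P a v x y = r := by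
        intro hm
        rw [← hc v x y r hm]
        by_cases hv : (x, y) = var z a v
        · rw [opP_pos (z := z) (P := P) (Or.inl hv)]
          exact (opP_pos (z := z) (P := fun v p => p = var z a v) hv).symm
        · have hnP : ¬ P v (x, y) := by
            rintro (h5 | ⟨-, h5⟩)
            · exact hv h5
            · exact hv (hkey hR hm h5)
          rw [opP_neg hnP]
          exact (opP_neg (z := z) (P := fun v p => p = var z a v) hv).symm
      rw [List.append_assoc, List.mem_append, List.mem_append] at hr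
      rcases hr with hr | hr | hr
      · exact hout (by simp [hr])
      · have hm : some (v, x, y, r) ∈ L1' ++ L2' ++ L3' := by simp [hr]
        rw [← hc' v x y r hm]
        by_cases hv : (x, y) = var z a' v
        · have hvE : v ∉ E' := by
            intro hvE
            have h6 := (mem_EE.1 (hE hvE)).2
            apply h6
            rw [mem_NN, ← hv]
            exact ⟨r, hr⟩
          rw [opP_pos (z := z) (P := P) (Or.inr ⟨hvE, hv⟩), haa v hvE]
          exact (opP_pos (z := z) (P := fun v p => p = var z a' v) hv).symm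
        · have hnP : ¬ P v (x, y) := by
            rintro (h5 | ⟨-, h5⟩)
            · exact hv (hkey hR.symm hm h5)
            · exact hv h5
          rw [opP_neg hnP]
          exact (opP_neg (z := z) (P := fun v p => p = var z a' v) hv).symm
      · exact hout (by simp [hr])
  have h5 := hw _ _ hacc
  -- the wrong queries
  set V' : Finset (Node μ T) := (NN z a' L2').filter (fun v => ∃ u ∈ ch v, u ∈ D) with hV'
  have h6 : D ⊆ V'.biUnion ch := by
    intro u hu
    obtain ⟨⟨v, hv, huv⟩, -⟩ := mem_EE.1 (hE (hD u hu).1)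
    rw [Finset.mem_biUnion]
    exact ⟨v, Finset.mem_filter.2 ⟨hv, u, huv, hu⟩, huv⟩
  have h7 : D.card ≤ V'.card * 2 :=
    (Finset.card_le_card h6).trans (Finset.card_biUnion_le_card_mul _ _ _ fun v _ => card_ch v)
  have hfin : (wrong z (opP z P a) (L1 ++ L2' ++ L3)).Finite := by
    refine Set.Finite.subset (List.finite_toSet
      ((L1 ++ L2' ++ L3).filterMap fun l => l.map fun c => (c.1, c.2.1, c.2.2.1))) ?_
    rintro ⟨v, x, y⟩ ⟨⟨r, hr⟩, -⟩
    simp only [Set.mem_ofPred_eq, List.mem_filterMap]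
    exact ⟨some (v, x, y, r), hr, rfl⟩
  have h8 : V'.card ≤ (wrong z (opP z P a) (L1 ++ L2' ++ L3)).ncard := by
    rw [← Set.ncard_coe_finset]
    refine Set.ncard_le_ncard_of_injOn (fun v => (v, (var z a' v).1, (var z a' v).2)) ?_ ?_ hfin
    · intro v hv
      rw [Finset.mem_coe, hV', Finset.mem_filter, mem_NN] at hv
      obtain ⟨⟨r, hr⟩, u, huv, hu⟩ := hv
      refine (mem_wrong hPv).2 ⟨⟨r, by simp [hr]⟩, ?_⟩
      intro h9
      obtain ⟨hv0, huv⟩ := mem_ch.1 huv
      unfold var at h9
      rw [if_neg hv0, if_neg hv0, Prod.mk.injEq] at h9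
      rcases huv with rfl | rfl
      · exact (hD _ hu).2 h9.1.symm
      · exact (hD _ hu).2 h9.2.symm
    · intro v _ v' _ hvv
      exact (Prod.mk.inj hvv).1
  omega

end Pool.Agent.Bfly
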