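import Pool.Agent.Bfly.Swap

/-!
# A window which skips many nodes
-/

set_option autoImplicit false

namespace Pool.Agent.Bfly

open Finset

variable {μ T : ℕ} {K Q : Type}

theorem NN_append {z : K} {a : Node μ T → K} (L L' : List (Lab μ T K)) (v : Node μ T) :
    v ∈ NN z a (L ++ L') ↔ v ∈ NN z a L ∨ v ∈ NN z a L' := by
  simp only [mem_NN, List.mem_append, exists_or]

theorem NN_nil {z : K} {a : Node μ T → K} : NN z a ([] : List (Lab μ T K)) = ∅ := by
  ext v
  simp [mem_NN]

open Classical in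
/-- The number of nodes of the layer `t` in `NN z a L`. -/
noncomputable def cnt (z : K) (a : Node μ T → K) (t : Fin T) (L : List (Lab μ T K)) : ℕ :=
  (univ.filter fun x : Pos μ => (t, x) ∈ NN z a L).card

theorem cnt_append_le {z : K} {a : Node μ T → K} (t : Fin T) (L L' : List (Lab μ T K)) :
    cnt z a t (L ++ L') ≤ cnt z a t L + cnt z a t L' := by
  classical
  unfold cnt
  refine le_trans (card_le_card ?_) (card_union_le _ _)
  intro x hx
  rw [mem_filter] at hx
  rw [mem_union, mem_filter, mem_filter]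
  rcases (NN_append _ _ _).1 hx.2 with h | h
  · exact Or.inl ⟨mem_univ _, h⟩
  · exact Or.inr ⟨mem_univ _, h⟩

theorem cnt_nil {z : K} {a : Node μ T → K} (t : Fin T) :
    cnt z a t ([] : List (Lab μ T K)) = 0 := by
  unfold cnt
  rw [NN_nil]
  simp

theorem cnt_single {z : K} {a : Node μ T → K} (t : Fin T) (ℓ : Lab μ T K) :
    cnt z a t [ℓ] ≤ 1 := by
  classical
  unfold cnt
  rw [card_le_one]
  intro x hx y hy
  rw [mem_filter, mem_NN] at hx hy
  obtain ⟨-, r, hr⟩ := hx
  obtain ⟨-, r', hr'⟩ := hy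
  rw [List.mem_singleton] at hr hr'
  rw [← hr'] at hr
  have h1 := (Prod.mk.inj (Option.some.inj hr)).1
  exact (Prod.mk.inj h1).2

/-- The expansion of butterflies. -/
theorem expand {N E : Finset (Node μ T)} (hE : ∀ v ∈ N, ∀ u ∈ ch v, u ∉ N → u ∈ E)
    {t0 t1 : Fin T} (h01 : t1.val = t0.val + μ) (hmod : (t0.val + 1) % μ = 0) :
    ((univ.filter fun x : Pos μ => (t0, x) ∉ N).card) *
      ((univ.filter fun y : Pos μ => (t1, y) ∈ N).card) ≤ 2 ^ μ * E.card := by
  classical
  -- the path from `(t1, y)` to `(t0, x)`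
  set p : ℕ → Pos μ → Pos μ → Pos μ := fun j x y c => if c.val < j then y c else x c with hp
  have hlay : ∀ j, j ≤ μ → t0.val + j < T := by
    intro j hj
    have := t1.2
    omega
  have hex : ∀ x y : Pos μ, (t0, x) ∉ N → (t1, y) ∈ N → ∃ j, ∃ hj : j < μ,
      (⟨t0.val + (j + 1), hlay _ hj⟩, p (j + 1) x y) ∈ N ∧
      ((⟨t0.val + j, hlay _ hj.le⟩, p j x y) : Node μ T) ∉ N := by
    intro x y hx hy
    by_contra hcon
    push Not at hcon
    have h1 : ∀ i, ∀ hi : i ≤ μ, (⟨t0.val + (μ - i), hlay _ (Nat.sub_le _ _)⟩, p (μ - i) x y) ∈ N := by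
      intro i
      induction i with
      | zero =>
        intro _
        have e1 : p (μ - 0) x y = y := by
          funext c
          simp only [hp]
          rw [if_pos (by have := c.2; omega)]
        rw [e1]
        have e2 : (⟨t0.val + (μ - 0), hlay _ (Nat.sub_le _ _)⟩ : Fin T) = t1 :=
          Fin.ext (by simp [h01])
        rw [e2]
        exact hy
      | succ i ih =>
        intro hi
        have h2 := ih (by omega)
        refine hcon (μ - (i + 1)) (by omega) ?_
        have e3 : μ - (i + 1) + 1 = μ - i := by omega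
        have e4 : (⟨t0.val + (μ - (i + 1) + 1), hlay _ (by omega)⟩ : Fin T) =
            ⟨t0.val + (μ - i), hlay _ (Nat.sub_le _ _)⟩ := Fin.ext (by simp [e3])
        rw [e4, e3]
        exact h2
    have h2 := h1 μ le_rfl
    have e1 : p (μ - μ) x y = x := by
      funext c
      simp only [hp]
      rw [if_neg (by omega)]
    have e2 : (⟨t0.val + (μ - μ), hlay _ (Nat.sub_le _ _)⟩ : Fin T) = t0 := Fin.ext (by simp)
    rw [e1, e2] at h2
    exact hx h2
  -- the step of the path is an edge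
  have hstep : ∀ j, ∀ hj : j < μ, ∀ x y : Pos μ,
      (⟨t0.val + (j + 1), hlay _ hj⟩, p (j + 1) x y) ∈ N →
      ((⟨t0.val + j, hlay _ hj.le⟩, p j x y) : Node μ T) ∉ N →
      ((⟨t0.val + j, hlay _ hj.le⟩, p j x y) : Node μ T) ∈ E := by
    intro j hj x y h1 h2
    refine hE _ h1 _ ?_ h2
    rw [mem_ch]
    refine ⟨by simp, ?_⟩
    have hm : (t0.val + (j + 1)) % μ = j := by
      have : t0.val + (j + 1) = (t0.val + 1) + j := by ring
      rw [this, Nat.add_mod, hmod, zero_add, Nat.mod_mod, Nat.mod_eq_of_lt hj]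
    by_cases hxy : x ⟨j, hj⟩ = y ⟨j, hj⟩
    · left
      refine Prod.ext (Fin.ext (by simp)) ?_
      funext c
      simp only [hp]
      rcases lt_trichotomy c.val j with h | h | h
      · rw [if_pos h, if_pos (by omega)]
      · rw [if_neg (by omega), if_pos (by omega)]
        have : c = ⟨j, hj⟩ := Fin.ext h
        rw [this, hxy]
      · rw [if_neg (by omega), if_neg (by omega)]
    · right
      refine Prod.ext (Fin.ext (by simp)) ?_
      funext c
      simp only [hp, flip]
      rw [hm]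
      rcases lt_trichotomy c.val j with h | h | h
      · rw [if_pos h, if_neg (by omega), if_pos (by omega)]
      · rw [if_neg (by omega), if_pos h, if_pos (by omega)]
        have : c = ⟨j, hj⟩ := Fin.ext h
        rw [this]
        cases hx : x ⟨j, hj⟩ <;> cases hy : y ⟨j, hj⟩ <;> simp_all
      · rw [if_neg (by omega), if_neg (by omega), if_neg (by omega)]
  choose! jf hjf using hex
  have hjf1 : ∀ x y, (t0, x) ∉ N → (t1, y) ∈ N → jf x y < μ := by
    intro x y hx hy
    exact (hjf x y hx hy).1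
  have hjf2 : ∀ x y (hx : (t0, x) ∉ N) (hy : (t1, y) ∈ N),
      ((⟨t0.val + jf x y, hlay _ (hjf1 x y hx hy).le⟩, p (jf x y) x y) : Node μ T) ∈ E := by
    intro x y hx hy
    obtain ⟨h1, h2, h3⟩ := hjf x y hx hy
    exact hstep _ h1 x y h2 h3
  rw [← card_product]
  have hcE : (univ : Finset (Pos μ)).card * E.card = 2 ^ μ * E.card := by
    rw [card_univ, Fintype.card_fun, Fintype.card_bool, Fintype.card_fin]
  rw [← hcE, ← card_product]
  let g : Pos μ × Pos μ → Pos μ × Node μ T := fun xy =>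
    if h : (t0, xy.1) ∉ N ∧ (t1, xy.2) ∈ N then
      (fun c => if c.val < jf xy.1 xy.2 then xy.1 c else xy.2 c,
        (⟨t0.val + jf xy.1 xy.2, hlay _ (hjf1 _ _ h.1 h.2).le⟩, p (jf xy.1 xy.2) xy.1 xy.2))
    else (xy.1, (t0, xy.1))
  refine card_le_card_of_injOn g ?_ ?_
  · rintro ⟨x, y⟩ hxy
    rw [mem_coe, mem_product, mem_filter, mem_filter] at hxy
    have h : (t0, x) ∉ N ∧ (t1, y) ∈ N := ⟨hxy.1.2, hxy.2.2⟩
    rw [mem_coe, mem_product]
    simp only [g]
    rw [dif_pos h]
    exact ⟨mem_univ _, hjf2 _ _ h.1 h.2⟩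
  · rintro ⟨x, y⟩ hxy ⟨x', y'⟩ hxy' hg
    rw [mem_coe, mem_product, mem_filter, mem_filter] at hxy hxy'
    have h : (t0, x) ∉ N ∧ (t1, y) ∈ N := ⟨hxy.1.2, hxy.2.2⟩
    have h' : (t0, x') ∉ N ∧ (t1, y') ∈ N := ⟨hxy'.1.2, hxy'.2.2⟩
    simp only [g] at hg
    rw [dif_pos h, dif_pos h', Prod.mk.injEq, Prod.mk.injEq, Fin.mk.injEq] at hg
    obtain ⟨g1, g2, g3⟩ := hg
    have g4 : jf x y = jf x' y' := by omega
    simp only [hp] at g3
    rw [← g4] at g1 g3
    have k1 : ∀ c, x c = x' c ∧ y c = y' c := by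
      intro c
      have q1 := congrFun g1 c
      have q3 := congrFun g3 c
      by_cases hc : c.val < jf x y
      · rw [if_pos hc, if_pos hc] at q1 q3
        exact ⟨q1, q3⟩
      · rw [if_neg hc, if_neg hc] at q1 q3
        exact ⟨q3, q1⟩
    exact Prod.ext (funext fun c => (k1 c).1) (funext fun c => (k1 c).2)

/-- A window with a part of the nodes of a layer has most of the nodes `μ` layers below. -/
theorem expand_cnt {z : K} {a : Node μ T → K} {L : List (Lab μ T K)}
    {t0 t1 : Fin T} (h01 : t1.val = t0.val + μ) (hmod : (t0.val + 1) % μ = 0) :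
    (2 ^ μ - cnt z a t0 L) * cnt z a t1 L ≤ 2 ^ μ * (EE z a L).card := by
  classical
  have h1 := expand (N := NN z a L) (E := EE z a L)
    (fun v hv u hu huN => mem_EE.2 ⟨⟨v, hv, hu⟩, huN⟩) h01 hmod
  have h2 : (univ.filter fun x : Pos μ => (t0, x) ∉ NN z a L).card = 2 ^ μ - cnt z a t0 L := by
    unfold cnt
    rw [filter_not, card_sdiff_of_subset (filter_subset _ _), card_univ, Fintype.card_fun,
      Fintype.card_bool, Fintype.card_fin]
  rw [h2] at h1
  exact h1

/-- Windows with half of the nodes of a high layer are long. -/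
theorem long_window (hμ : 2 ≤ μ) {z : K} {a : Node μ T → K} {L : List (Lab μ T K)}
    (hall : ∀ L2, L2 <:+: L → 8 * (EE z a L2).card < 2 ^ μ) :
    ∀ (i : ℕ) (t : Fin T), t.val + 1 = μ * (i + 1) → ∀ L2, L2 <:+: L →
      2 ^ μ ≤ 2 * cnt z a t L2 → 2 ^ i ≤ L2.length := by
  obtain ⟨m, hm⟩ : ∃ m, 2 ^ μ = 4 * m :=
    ⟨2 ^ (μ - 2), by rw [show 4 = 2 ^ 2 by norm_num, ← pow_add]; congr 1; omega⟩
  have hm1 : 1 ≤ m := by
    have : 0 < 2 ^ μ := by positivity
    omega
  intro i
  induction i with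
  | zero =>
    intro t _ L2 _ h2
    rcases L2 with _ | ⟨ℓ, L2⟩
    · rw [cnt_nil] at h2
      omega
    · simp
  | succ i ih =>
    intro t ht L2 hL2 h2
    -- the shortest prefix with a quarter of the nodes
    have hex : ∃ n, 2 ^ μ ≤ 4 * cnt z a t (L2.take n) := ⟨L2.length, by
      rw [List.take_length]; omega⟩
    classical
    set n := Nat.find hex with hn
    have h3 := Nat.find_spec hex
    rw [← hn] at h3
    have hn0 : n ≠ 0 := by
      intro h0
      rw [h0, List.take_zero, cnt_nil] at h3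
      omega
    have h4 : ¬ 2 ^ μ ≤ 4 * cnt z a t (L2.take (n - 1)) := Nat.find_min hex (by omega)
    have h5 : cnt z a t (L2.take n) ≤ cnt z a t (L2.take (n - 1)) + 1 := by
      have e1 : L2.take n = L2.take (n - 1) ++ (L2.drop (n - 1)).take 1 := by
        conv_lhs => rw [show n = (n - 1) + 1 by omega]
        rw [List.take_add]
      rw [e1]
      refine (cnt_append_le _ _ _).trans (Nat.add_le_add_left ?_ _)
      rcases hd : L2.drop (n - 1) with _ | ⟨ℓ, L'⟩
      · simp [cnt_nil]
      · simpa using cnt_single (z := z) (a := a) t ℓ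
    have h6 : cnt z a t L2 ≤ cnt z a t (L2.take n) + cnt z a t (L2.drop n) := by
      conv_lhs => rw [← List.take_append_drop n L2]
      exact cnt_append_le _ _ _
    have h7 : 2 ^ μ ≤ 4 * cnt z a t (L2.drop n) := by omega
    have hi1 : L2.take n <:+: L := ((List.take_prefix n L2).isInfix).trans hL2
    have hi2 : L2.drop n <:+: L := ((List.drop_suffix n L2).isInfix).trans hL2
    have hts : μ * (i + 1 + 1) = μ * (i + 1) + μ := by ring
    have hpos : 0 < μ * (i + 1) := by positivity
    have ht0 : t.val - μ < T := by have := t.2; omega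
    have hsum : (⟨t.val - μ, ht0⟩ : Fin T).val + 1 = μ * (i + 1) := by
      simp only
      omega
    have hkey : ∀ L3, L3 <:+: L → 2 ^ μ ≤ 4 * cnt z a t L3 →
        2 ^ μ ≤ 2 * cnt z a ⟨t.val - μ, ht0⟩ L3 := by
      intro L3 hL3 h8
      have h9 := expand_cnt (z := z) (a := a) (L := L3) (t0 := ⟨t.val - μ, ht0⟩) (t1 := t)
        (by simp only; omega) (by rw [hsum]; exact Nat.mul_mod_right _ _)
      have h10 := hall L3 hL3
      by_contra h11
      push Not at h11
      set A := 2 ^ μ - cnt z a ⟨t.val - μ, ht0⟩ L3 with hA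
      have h12 : 2 ^ μ < 2 * A := by omega
      have h13 : 2 ^ μ * 2 ^ μ < 8 * (A * cnt z a t L3) := by
        calc 2 ^ μ * 2 ^ μ < 2 * A * 2 ^ μ := Nat.mul_lt_mul_of_pos_right h12 (by positivity)
          _ ≤ 2 * A * (4 * cnt z a t L3) := Nat.mul_le_mul_left _ h8
          _ = _ := by ring
      have h14 : 8 * (A * cnt z a t L3) ≤ 2 ^ μ * (8 * (EE z a L3).card) := by
        calc 8 * (A * cnt z a t L3) ≤ 8 * (2 ^ μ * (EE z a L3).card) := Nat.mul_le_mul_left _ h9
          _ = _ := by ring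
      have h15 : 2 ^ μ * (8 * (EE z a L3).card) < 2 ^ μ * 2 ^ μ :=
        Nat.mul_lt_mul_of_pos_left h10 (by positivity)
      omega
    have h16 := ih ⟨t.val - μ, ht0⟩ hsum (L2.take n) hi1 (hkey _ hi1 h3)
    have h17 := ih ⟨t.val - μ, ht0⟩ hsum (L2.drop n) hi2 (hkey _ hi2 h7)
    have h18 : (L2.take n).length + (L2.drop n).length = L2.length := by
      rw [← List.length_append, List.take_append_drop]
    rw [pow_succ]
    omega

theorem exists_window {H : ℕ} (hμ : 2 ≤ μ) (hH : 1 ≤ H) (M : NBP (Node μ (μ * H)) K Q) {z z' : K}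
    (hz : z ≠ z') (hM : ∀ f L, M.Acc f L → ∀ x, value z f (μ * H) x = z')
    {a : Node μ (μ * H) → K} (ha : ∀ v, a v ≠ z) {L : List (Lab μ (μ * H) K)}
    (hL : M.Acc (opA z a) L) (hlen : L.length < 2 ^ (H - 1)) :
    ∃ L2, L2 <:+: L ∧ 2 ^ μ ≤ 8 * (EE z a L2).card := by
  classical
  by_contra hcon
  push Not at hcon
  have hpos : 0 < μ * H := by positivity
  have h1 := long_window hμ hcon (H - 1) ⟨μ * H - 1, by omega⟩
    (by simp only; rw [Nat.sub_add_cancel hpos, Nat.sub_add_cancel hH]) L (List.infix_refl L) ?_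
  · omega
  · have h2 : cnt z a ⟨μ * H - 1, by omega⟩ L = 2 ^ μ := by
      unfold cnt
      rw [filter_true_of_mem, card_univ, Fintype.card_fun, Fintype.card_bool, Fintype.card_fin]
      intro x _
      exact cover M hz hM ha hL _
    rw [h2]
    omega

end Pool.Agent.Bfly
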